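import Pool.Agent.Helper23.MV.StC
import Pool.Agent.Helper29.GK.M_RAM
import Pool.Agent.Helper29.GK.M_SSA
import Pool.Agent.Helper87.GK.M_SSB
import Pool.Agent.Helper15.AB.M_DB

/-!
# Project MV: module SER (the singular series outside `R`)
-/

set_option autoImplicit false

namespace Pool.Agent.Helper83.MV

open Finset ArithmeticFunction
open Pool.Agent.Helper23.MV
open Pool.Agent.Helper23.GK (cR SS)

namespace SER

/-! ### local factors -/

/-- `p/(p-1)` on the divisors of `N` -/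
noncomputable def wf (N p : ℕ) : ℝ := if p ∣ N then (p : ℝ) / (p - 1) else 1

theorem wf_one_le (N p : ℕ) (hp : p.Prime) : 1 ≤ wf N p := by
  unfold wf
  have h2 : (2 : ℝ) ≤ p := by exact_mod_cast hp.two_le
  split_ifs
  · rw [one_le_div (by linarith)]
    linarith
  · exact le_rfl

/-- products of `wf` -/
theorem prod_wf_le (N : ℕ) (hN : 1 ≤ N) (hE : Even N) (U : Finset ℕ) (hU : ∀ p ∈ U, p.Prime) :
    ∏ p ∈ U, wf N p ≤ 2 * SS N := by
  -- reduce to the divisors of `N`
  have h1 : ∏ p ∈ U, wf N p ≤ ∏ p ∈ N.primeFactors, (p : ℝ) / (p - 1) := by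
    have h2 : ∏ p ∈ U, wf N p = ∏ p ∈ U.filter (fun p => p ∣ N), (p : ℝ) / (p - 1) := by
      rw [Finset.prod_filter]
      rfl
    rw [h2]
    apply Finset.prod_le_prod_of_subset_of_one_le
    · intro p hp
      rw [mem_filter] at hp
      exact Nat.mem_primeFactors.2 ⟨hU p hp.1, hp.2, by omega⟩
    · intro p hp
      have h3 := (hU p (mem_filter.1 hp).1).two_le
      have h4 : (2 : ℝ) ≤ p := by exact_mod_cast h3
      apply div_nonneg <;> linarith
    · intro p hp _
      have h3 := (Nat.prime_of_mem_primeFactors hp).two_le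
      have h4 : (2 : ℝ) ≤ p := by exact_mod_cast h3
      rw [one_le_div (by linarith)]
      linarith
  refine le_trans h1 ?_
  -- split off `p = 2`
  have h2 : ∏ p ∈ N.primeFactors, (p : ℝ) / (p - 1) =
      2 * ∏ p ∈ N.primeFactors.filter (fun p => 2 < p), (p : ℝ) / (p - 1) := by
    rw [← Finset.prod_filter_mul_prod_filter_not N.primeFactors (fun p => 2 < p)]
    have h12 : N.primeFactors.filter (fun p => ¬ 2 < p) = {2} := by
      ext p
      simp only [mem_filter, mem_singleton, Nat.mem_primeFactors]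
      constructor
      · rintro ⟨⟨h, -, -⟩, h'⟩
        exact le_antisymm (not_lt.1 h') h.two_le
      · rintro rfl
        exact ⟨⟨Nat.prime_two, hE.two_dvd, by omega⟩, lt_irrefl 2⟩
    rw [h12, Finset.prod_singleton]
    push_cast
    ring
  rw [h2]
  have h3 : ∏ p ∈ N.primeFactors.filter (fun p => 2 < p), (p : ℝ) / (p - 1) ≤
      ∏ p ∈ N.primeFactors.filter (fun p => 2 < p), (((p : ℝ) - 1) / ((p : ℝ) - 2)) := by
    apply Finset.prod_le_prod
    · intro p hp
      have h4 : (3 : ℝ) ≤ p := by exact_mod_cast (mem_filter.1 hp).2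
      apply div_nonneg <;> linarith
    · intro p hp
      have h4 : (3 : ℝ) ≤ p := by exact_mod_cast (mem_filter.1 hp).2
      rw [div_le_div_iff₀ (by linarith) (by linarith)]
      nlinarith
  have h4 : 0 ≤ ∏ p ∈ N.primeFactors.filter (fun p => 2 < p), (((p : ℝ) - 1) / ((p : ℝ) - 2)) := by
    apply Finset.prod_nonneg
    intro p hp
    have h4 : (3 : ℝ) ≤ p := by exact_mod_cast (mem_filter.1 hp).2
    apply div_nonneg <;> linarith
  have h5 := (Pool.Agent.Helper29.GK.hSSA 1 le_rfl).1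
  unfold SS at h5 ⊢
  simp only [Nat.primeFactors_one, Finset.filter_empty, Finset.prod_empty, mul_one] at h5
  nlinarith

theorem spf_bounds (N p : ℕ) (hE : Even N) (hp : p.Prime) : 0 < spf N p ∧ spf N p ≤ wf N p := by
  unfold spf wf
  split_ifs with h
  · have h2 : (2 : ℝ) ≤ p := by exact_mod_cast hp.two_le
    refine ⟨?_, le_rfl⟩
    apply div_pos <;> linarith
  · have h3 : 3 ≤ p := by
      rcases hp.eq_two_or_odd' with h2 | h2
      · exfalso
        apply h
        rw [h2]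
        exact hE.two_dvd
      · have h4 := hp.two_le
        obtain ⟨k, hk⟩ := h2
        omega
    have h4 : (3 : ℝ) ≤ p := by exact_mod_cast h3
    have h5 : (0 : ℝ) < (p : ℝ) - 1 := by linarith
    have h6 : (0 : ℝ) < (p : ℝ) - 2 := by linarith
    refine ⟨by positivity, ?_⟩
    rw [div_le_one (by positivity)]
    nlinarith

theorem SPr_bounds (R N : ℕ) (hE : Even N) :
    0 < SPr R N ∧ SPr R N ≤ ∏ p ∈ R.primeFactors, wf N p := by
  unfold SPr
  constructor
  · exact Finset.prod_pos fun p hp => (spf_bounds N p hE (Nat.prime_of_mem_primeFactors hp)).1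
  · exact Finset.prod_le_prod
      (fun p hp => (spf_bounds N p hE (Nat.prime_of_mem_primeFactors hp)).1.le)
      (fun p hp => (spf_bounds N p hE (Nat.prime_of_mem_primeFactors hp)).2)

/-! ### the multiplicative function -/

/-- `|c_s(N)|/φ(s)²` -/
noncomputable def gA (N : ℕ) : ArithmeticFunction ℝ where
  toFun s := |(cR s N : ℝ)| / (Nat.totient s : ℝ) ^ 2
  map_zero' := by simp

theorem gA_apply (N s : ℕ) : gA N s = |(cR s N : ℝ)| / (Nat.totient s : ℝ) ^ 2 := rfl

theorem cR_mul (N : ℕ) {m n : ℕ} (h : Nat.Coprime m n) :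
    cR (m * n) N = cR m N * cR n N :=
  (Pool.Agent.Helper29.GK.cRf_mult (N : ℤ)).map_mul_of_coprime h

theorem gA_mult (N : ℕ) : (gA N).IsMultiplicative := by
  refine ⟨?_, fun {m n} h => ?_⟩
  · rw [gA_apply, Pool.Agent.Helper29.GK.cR_one]
    simp
  · rw [gA_apply, gA_apply, gA_apply, cR_mul N h, Nat.totient_mul h]
    push_cast
    rw [abs_mul, mul_pow, div_mul_div_comm]

theorem gA_nonneg (N s : ℕ) : 0 ≤ gA N s := by
  rw [gA_apply]
  positivity

theorem gA_prime (N p : ℕ) (hp : p.Prime) :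
    1 + gA N p ≤ wf N p * (1 + 1 / ((p : ℝ) - 1) ^ 2) := by
  rw [gA_apply, Pool.Agent.Helper29.GK.cR_prime p hp, Nat.totient_prime hp, Nat.cast_sub hp.one_le]
  unfold wf
  have h2 : (2 : ℝ) ≤ p := by exact_mod_cast hp.two_le
  have h3 : (0 : ℝ) < (p : ℝ) - 1 := by linarith
  simp only [Int.natCast_dvd_natCast]
  split_ifs
  · push_cast
    rw [abs_of_pos h3]
    have h4 : 1 + ((p : ℝ) - 1) / ((p : ℝ) - 1) ^ 2 = (p : ℝ) / (p - 1) := by
      field_simp
      ring
    rw [h4]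
    have h5 : (0 : ℝ) ≤ (p : ℝ) / (p - 1) := by positivity
    have h6 : (0 : ℝ) ≤ 1 / ((p : ℝ) - 1) ^ 2 := by positivity
    nlinarith
  · push_cast
    simp

theorem gA_sqf (N s : ℕ) (hs : Squarefree s) : gA N s = ∏ p ∈ s.primeFactors, gA N p := by
  conv_lhs => rw [← Nat.prod_primeFactors_of_squarefree hs]
  exact (gA_mult N).map_prod_of_prime _ fun p hp => Nat.prime_of_mem_primeFactors hp

theorem summable_sh : Summable (fun n : ℕ => 1 / ((n : ℝ) - 1) ^ 2) := by
  rw [← summable_nat_add_iff 1]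
  have h : (fun n : ℕ => 1 / (((n + 1 : ℕ) : ℝ) - 1) ^ 2) = fun n : ℕ => 1 / (n : ℝ) ^ 2 := by
    funext n
    push_cast
    congr 2
    ring
  rw [h]
  exact Real.summable_one_div_nat_pow.2 (by norm_num)

/-- the constant -/
noncomputable def C1 : ℝ := Real.exp (∑' n : ℕ, 1 / ((n : ℝ) - 1) ^ 2)

theorem prod_C1 (T : Finset ℕ) : ∏ p ∈ T, (1 + 1 / ((p : ℝ) - 1) ^ 2) ≤ C1 := by
  unfold C1
  calc ∏ p ∈ T, (1 + 1 / ((p : ℝ) - 1) ^ 2) ≤ ∏ p ∈ T, Real.exp (1 / ((p : ℝ) - 1) ^ 2) := by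
        apply Finset.prod_le_prod
        · intro p _
          positivity
        · intro p _
          have := Real.add_one_le_exp (1 / ((p : ℝ) - 1) ^ 2)
          linarith
    _ = Real.exp (∑ p ∈ T, 1 / ((p : ℝ) - 1) ^ 2) := (Real.exp_sum _ _).symm
    _ ≤ _ := by
        apply Real.exp_le_exp.2
        exact summable_sh.sum_le_tsum T fun p _ => by positivity

theorem partA (R N : ℕ) (y : ℝ) (hN : 1 ≤ N) (hE : Even N) :
    SPr R N * ∑ s ∈ (Icc 1 ⌊y⌋₊).filter (fun s => Squarefree s ∧ Nat.Coprime s R),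
      |(cR s N : ℝ)| / (Nat.totient s : ℝ) ^ 2 ≤ 2 * C1 * SS N := by
  classical
  set T : Finset ℕ := (Icc 1 ⌊y⌋₊).filter (fun p => p.Prime ∧ ¬ p ∣ R) with hT
  have hTp : ∀ p ∈ T, p.Prime := fun p hp => (mem_filter.1 hp).2.1
  have h1 : ∑ s ∈ (Icc 1 ⌊y⌋₊).filter (fun s => Squarefree s ∧ Nat.Coprime s R),
      |(cR s N : ℝ)| / (Nat.totient s : ℝ) ^ 2 ≤ ∏ p ∈ T, (1 + gA N p) := by
    rw [Finset.prod_one_add]
    have h2 : ∑ s ∈ (Icc 1 ⌊y⌋₊).filter (fun s => Squarefree s ∧ Nat.Coprime s R),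
        |(cR s N : ℝ)| / (Nat.totient s : ℝ) ^ 2 =
        ∑ S ∈ ((Icc 1 ⌊y⌋₊).filter (fun s => Squarefree s ∧ Nat.Coprime s R)).image
          Nat.primeFactors, ∏ p ∈ S, gA N p := by
      rw [Finset.sum_image]
      · apply Finset.sum_congr rfl
        intro s hs
        rw [← gA_sqf N s (mem_filter.1 hs).2.1]
        rfl
      · intro s hs s' hs' h
        have h3 := Nat.prod_primeFactors_of_squarefree (mem_filter.1 hs).2.1
        have h4 := Nat.prod_primeFactors_of_squarefree (mem_filter.1 hs').2.1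
        rw [← h3, ← h4, h]
    rw [h2]
    apply Finset.sum_le_sum_of_subset_of_nonneg
    · intro S hS
      rw [Finset.mem_image] at hS
      obtain ⟨s, hs, rfl⟩ := hS
      rw [mem_filter, mem_Icc] at hs
      rw [Finset.mem_powerset]
      intro p hp
      rw [hT, mem_filter, mem_Icc]
      have hp' := Nat.mem_primeFactors.1 hp
      refine ⟨⟨hp'.1.one_le, le_trans (Nat.le_of_dvd (by omega) hp'.2.1) hs.1.2⟩, hp'.1, ?_⟩
      intro hpR
      have h5 : p ∣ Nat.gcd s R := Nat.dvd_gcd hp'.2.1 hpR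
      rw [hs.2.2] at h5
      exact hp'.1.one_lt.ne' (Nat.dvd_one.1 h5)
    · intro S _ _
      exact Finset.prod_nonneg fun p _ => gA_nonneg N p
  have h2 : ∏ p ∈ T, (1 + gA N p) ≤ (∏ p ∈ T, wf N p) * C1 := by
    calc ∏ p ∈ T, (1 + gA N p) ≤ ∏ p ∈ T, (wf N p * (1 + 1 / ((p : ℝ) - 1) ^ 2)) := by
          apply Finset.prod_le_prod
          · intro p _
            have := gA_nonneg N p
            linarith
          · intro p hp
            exact gA_prime N p (hTp p hp)
      _ = (∏ p ∈ T, wf N p) * ∏ p ∈ T, (1 + 1 / ((p : ℝ) - 1) ^ 2) := Finset.prod_mul_distrib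
      _ ≤ _ := by
          apply mul_le_mul_of_nonneg_left (prod_C1 T)
          exact Finset.prod_nonneg fun p hp => le_trans zero_le_one (wf_one_le N p (hTp p hp))
  obtain ⟨h3, h4⟩ := SPr_bounds R N hE
  have hC1 : 0 ≤ C1 := (Real.exp_pos _).le
  have hT0 : 0 ≤ ∏ p ∈ T, wf N p :=
    Finset.prod_nonneg fun p hp => le_trans zero_le_one (wf_one_le N p (hTp p hp))
  have h5 : Disjoint R.primeFactors T := by
    rw [Finset.disjoint_left]
    intro p hp hp'
    exact (mem_filter.1 hp').2.2 (Nat.dvd_of_mem_primeFactors hp)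
  calc SPr R N * ∑ s ∈ (Icc 1 ⌊y⌋₊).filter (fun s => Squarefree s ∧ Nat.Coprime s R),
      |(cR s N : ℝ)| / (Nat.totient s : ℝ) ^ 2 ≤
        (∏ p ∈ R.primeFactors, wf N p) * ((∏ p ∈ T, wf N p) * C1) := by
        apply mul_le_mul h4 (le_trans h1 h2)
        · apply Finset.sum_nonneg
          intro s _
          positivity
        · exact le_trans h3.le h4
    _ = (∏ p ∈ R.primeFactors ∪ T, wf N p) * C1 := by
        rw [Finset.prod_union h5]
        ring
    _ ≤ 2 * SS N * C1 := by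
        apply mul_le_mul_of_nonneg_right _ hC1
        apply prod_wf_le N hN hE
        intro p hp
        rw [Finset.mem_union] at hp
        rcases hp with hp | hp
        · exact Nat.prime_of_mem_primeFactors hp
        · exact hTp p hp
    _ = 2 * C1 * SS N := by ring

/-! ### the series -/

open Classical in
/-- terms of the series outside `R` -/
noncomputable def fR (R N s : ℕ) : ℝ :=
  if Nat.Coprime s R then (moebius s : ℝ) ^ 2 / (Nat.totient s : ℝ) ^ 2 * (cR s N : ℝ) else 0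

theorem fR_zero (R N : ℕ) : fR R N 0 = 0 := by
  unfold fR
  split_ifs <;> simp

theorem fR_one (R N : ℕ) : fR R N 1 = 1 := by
  unfold fR
  rw [if_pos (Nat.coprime_one_left R), Pool.Agent.Helper29.GK.cR_one]
  simp

theorem fR_mul (R N : ℕ) {m n : ℕ} (h : Nat.Coprime m n) :
    fR R N (m * n) = fR R N m * fR R N n := by
  unfold fR
  by_cases h1 : Nat.Coprime m R
  · by_cases h2 : Nat.Coprime n R
    · rw [if_pos (Nat.Coprime.mul_left h1 h2), if_pos h1, if_pos h2, cR_mul N h,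
        Nat.totient_mul h, isMultiplicative_moebius.map_mul_of_coprime h]
      push_cast
      rw [mul_pow, mul_pow, ← div_mul_div_comm]
      ring
    · rw [if_neg (c := Nat.Coprime n R) h2, mul_zero, if_neg]
      intro h3
      exact h2 (Nat.Coprime.coprime_mul_left h3)
  · rw [if_neg (c := Nat.Coprime m R) h1, zero_mul, if_neg]
    intro h3
    exact h1 (Nat.Coprime.coprime_mul_right h3)

theorem fR_pow (R N : ℕ) {p : ℕ} (hp : p.Prime) {e : ℕ} (he : 2 ≤ e) : fR R N (p ^ e) = 0 := by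
  unfold fR
  split_ifs
  · rw [moebius_apply_prime_pow hp (by omega), if_neg (by omega)]
    simp
  · rfl

theorem fR_prime (R N : ℕ) {p : ℕ} (hp : p.Prime) :
    1 + fR R N p = if p ∣ R then 1 else spf N p := by
  unfold fR
  have h2 : (2 : ℝ) ≤ p := by exact_mod_cast hp.two_le
  have h3 : (p : ℝ) - 1 ≠ 0 := by linarith
  by_cases h : p ∣ R
  · rw [if_pos h, if_neg]
    · ring
    · rw [hp.coprime_iff_not_dvd]
      exact fun h' => h' h
  · rw [if_neg h, if_pos ((hp.coprime_iff_not_dvd).2 h), moebius_apply_prime hp,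
      Pool.Agent.Helper29.GK.cR_prime p hp, Nat.totient_prime hp, Nat.cast_sub hp.one_le]
    unfold spf
    simp only [Int.natCast_dvd_natCast]
    split_ifs
    · push_cast
      field_simp
      ring
    · push_cast
      field_simp
      ring

theorem tsum_pow (R N : ℕ) {p : ℕ} (hp : p.Prime) :
    ∑' e : ℕ, fR R N (p ^ e) = 1 + fR R N p := by
  rw [tsum_eq_sum (s := range 2) fun e he => fR_pow R N hp (by
    rw [mem_range] at he; omega)]
  rw [Finset.sum_range_succ, Finset.sum_range_one, pow_zero, pow_one, fR_one]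

/-- the majorant, with its sum -/
theorem majorant : ∃ C : ℝ, 1 ≤ C ∧ ∀ N : ℕ, 1 ≤ N → ∃ B : ℕ → ℝ, ∃ b : ℝ, (∀ s, 0 ≤ B s) ∧
    HasSum B b ∧ b ≤ C * (N.divisors.card : ℝ) ∧
    ∀ R s : ℕ, |fR R N s| ≤ B s * (s : ℝ) ^ (-(1 / 2) : ℝ) := by
  obtain ⟨C0, hC0, hDB⟩ := Pool.Agent.Helper15.AB.hDB (1 / 8) (by norm_num)
  have hsum : Summable (fun q : ℕ => (q : ℝ) ^ (-(5 / 4) : ℝ)) := by
    rw [Real.summable_nat_rpow]; norm_num
  set Z : ℝ := ∑' q : ℕ, (q : ℝ) ^ (-(5 / 4) : ℝ) with hZ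
  have hZ0 : 0 ≤ Z := tsum_nonneg fun q => by positivity
  refine ⟨C0 ^ 2 * Z + 1, by nlinarith [mul_nonneg (sq_nonneg C0) hZ0], fun N hN => ?_⟩
  refine ⟨fun s => ∑ d ∈ N.divisors, (d : ℝ) * (C0 ^ 2 * (if d ∣ s then (s : ℝ) ^ (-(5 / 4) : ℝ) else 0)),
    ∑ d ∈ N.divisors, (d : ℝ) * (C0 ^ 2 * ((d : ℝ) ^ (-(5 / 4) : ℝ) * Z)), ?_, ?_, ?_, ?_⟩
  · intro s
    apply Finset.sum_nonneg
    intro d _
    have : (0 : ℝ) ≤ (if d ∣ s then (s : ℝ) ^ (-(5 / 4) : ℝ) else 0) := by
      split_ifs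
      · positivity
      · exact le_rfl
    positivity
  · apply hasSum_sum
    intro d hd
    apply HasSum.mul_left
    apply HasSum.mul_left
    have hd0 : 0 < d := Nat.pos_of_mem_divisors hd
    have hinj : Function.Injective (fun k : ℕ => d * k) := fun a b hab =>
      Nat.eq_of_mul_eq_mul_left hd0 hab
    rw [← hinj.hasSum_iff]
    · have h1 : ((fun s : ℕ => if d ∣ s then (s : ℝ) ^ (-(5 / 4) : ℝ) else 0) ∘
          fun k : ℕ => d * k) = fun k : ℕ => (d : ℝ) ^ (-(5 / 4) : ℝ) * (k : ℝ) ^ (-(5 / 4) : ℝ) := by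
        funext k
        simp only [Function.comp, dvd_mul_right, if_true]
        push_cast
        rw [Real.mul_rpow (Nat.cast_nonneg _) (Nat.cast_nonneg _)]
      rw [h1]
      exact hsum.hasSum.mul_left _
    · intro s hs
      rw [if_neg]
      rintro ⟨k, hk⟩
      exact hs ⟨k, hk.symm⟩
  · have h1 : ∑ d ∈ N.divisors, (d : ℝ) * (C0 ^ 2 * ((d : ℝ) ^ (-(5 / 4) : ℝ) * Z)) ≤
        ∑ d ∈ N.divisors, (C0 ^ 2 * Z + 1) := by
      apply Finset.sum_le_sum
      intro d hd
      have hd0 : 0 < d := Nat.pos_of_mem_divisors hd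
      have hd1 : (1 : ℝ) ≤ d := by exact_mod_cast hd0
      have hd0' : (0 : ℝ) < d := by linarith
      have h2 : (d : ℝ) * (d : ℝ) ^ (-(5 / 4) : ℝ) ≤ 1 := by
        have h3 : (d : ℝ) * (d : ℝ) ^ (-(5 / 4) : ℝ) = (d : ℝ) ^ (-(1 / 4) : ℝ) := by
          nth_rewrite 1 [← Real.rpow_one (d : ℝ)]
          rw [← Real.rpow_add hd0']
          norm_num
        rw [h3]
        exact Real.rpow_le_one_of_one_le_of_nonpos hd1 (by norm_num)
      have h4 : 0 ≤ C0 ^ 2 * Z := by positivity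
      calc (d : ℝ) * (C0 ^ 2 * ((d : ℝ) ^ (-(5 / 4) : ℝ) * Z)) =
            ((d : ℝ) * (d : ℝ) ^ (-(5 / 4) : ℝ)) * (C0 ^ 2 * Z) := by ring
        _ ≤ 1 * (C0 ^ 2 * Z) := mul_le_mul_of_nonneg_right h2 h4
        _ ≤ _ := by linarith
    refine le_trans h1 ?_
    rw [Finset.sum_const, nsmul_eq_mul]
    exact le_of_eq (by ring)
  · intro R s
    rcases Nat.eq_zero_or_pos s with h0 | h0
    · subst h0
      rw [fR_zero]
      simp
    have hs0 : (0 : ℝ) < s := by exact_mod_cast h0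
    have hμ : (moebius s : ℝ) ^ 2 ≤ 1 := by
      have h1 : |moebius s| ≤ 1 := abs_moebius_le_one
      have h2 : |(moebius s : ℝ)| ≤ 1 := by exact_mod_cast h1
      rw [← sq_abs]
      exact pow_le_one₀ (abs_nonneg _) h2
    have hφ : (0 : ℝ) < Nat.totient s := by exact_mod_cast Nat.totient_pos.2 h0
    have h4 : (s : ℝ) ≤ Nat.totient s * (s.divisors.card : ℝ) := by
      have h5 : s ≤ Nat.totient s * s.divisors.card := by
        calc s = ∑ d ∈ s.divisors, Nat.totient d := (Nat.sum_totient s).symm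
          _ ≤ ∑ d ∈ s.divisors, Nat.totient s := by
              refine Finset.sum_le_sum fun d hd => ?_
              exact Nat.le_of_dvd (Nat.totient_pos.2 h0)
                (Nat.totient_dvd_of_dvd (Nat.dvd_of_mem_divisors hd))
          _ = _ := by rw [Finset.sum_const, smul_eq_mul, mul_comm]
      exact_mod_cast h5
    have h6 := hDB s h0
    -- 1/φ² ≤ C0² s^{-7/4}
    have h7 : 1 / (Nat.totient s : ℝ) ^ 2 ≤ C0 ^ 2 * (s : ℝ) ^ (-(7 / 4) : ℝ) := by
      have h8 : (s : ℝ) ≤ Nat.totient s * (C0 * (s : ℝ) ^ (1 / 8 : ℝ)) :=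
        le_trans h4 (mul_le_mul_of_nonneg_left h6 hφ.le)
      have h9 : (s : ℝ) ^ 2 ≤ (Nat.totient s : ℝ) ^ 2 * (C0 * (s : ℝ) ^ (1 / 8 : ℝ)) ^ 2 := by
        rw [← mul_pow]
        exact pow_le_pow_left₀ hs0.le h8 2
      have h10 : (C0 * (s : ℝ) ^ (1 / 8 : ℝ)) ^ 2 = C0 ^ 2 * (s : ℝ) ^ (1 / 4 : ℝ) := by
        rw [mul_pow, ← Real.rpow_natCast ((s : ℝ) ^ (1 / 8 : ℝ)) 2, ← Real.rpow_mul hs0.le]
        norm_num
      have h11 : (s : ℝ) ^ (-(7 / 4) : ℝ) = (s : ℝ) ^ (1 / 4 : ℝ) / (s : ℝ) ^ 2 := by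
        rw [← Real.rpow_natCast (s : ℝ) 2, ← Real.rpow_sub hs0]
        norm_num
      rw [h10] at h9
      rw [h11, div_le_iff₀ (by positivity)]
      have h12 : (0 : ℝ) < (s : ℝ) ^ 2 := by positivity
      calc (1 : ℝ) = (s : ℝ) ^ 2 / (s : ℝ) ^ 2 := (div_self h12.ne').symm
        _ ≤ ((Nat.totient s : ℝ) ^ 2 * (C0 ^ 2 * (s : ℝ) ^ (1 / 4 : ℝ))) / (s : ℝ) ^ 2 :=
            div_le_div_of_nonneg_right h9 h12.le
        _ = _ := by ring
    -- |c_s(N)| ≤ ∑_{d ∣ N, d ∣ s} d
    have h8 : |(cR s N : ℝ)| ≤ ∑ d ∈ N.divisors, (if d ∣ s then (d : ℝ) else 0) := by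
      unfold cR
      push_cast
      refine le_trans (Finset.abs_sum_le_sum_abs _ _) ?_
      have h9 : ∀ d ∈ s.divisors.filter (fun d : ℕ => (d : ℤ) ∣ (N : ℤ)),
          |(d : ℝ) * (moebius (s / d) : ℝ)| ≤ (d : ℝ) := by
        intro d _
        rw [abs_mul, abs_of_nonneg (Nat.cast_nonneg d)]
        have h10 : |moebius (s / d)| ≤ 1 := abs_moebius_le_one
        have h11 : |(moebius (s / d) : ℝ)| ≤ 1 := by exact_mod_cast h10
        have h12 : (0 : ℝ) ≤ d := Nat.cast_nonneg d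
        nlinarith
      refine le_trans (Finset.sum_le_sum h9) ?_
      rw [← Finset.sum_filter]
      apply Finset.sum_le_sum_of_subset_of_nonneg
      · intro d hd
        rw [mem_filter, Nat.mem_divisors, Int.natCast_dvd_natCast] at hd
        rw [mem_filter, Nat.mem_divisors]
        exact ⟨⟨hd.2, by omega⟩, hd.1.1⟩
      · intro d _ _
        exact Nat.cast_nonneg d
    have h9 : |fR R N s| ≤ C0 ^ 2 * (s : ℝ) ^ (-(7 / 4) : ℝ) *
        ∑ d ∈ N.divisors, (if d ∣ s then (d : ℝ) else 0) := by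
      have hnn : 0 ≤ ∑ d ∈ N.divisors, (if d ∣ s then (d : ℝ) else 0) :=
        le_trans (abs_nonneg _) h8
      unfold fR
      split_ifs
      · rw [abs_mul, abs_of_nonneg (by positivity)]
        apply mul_le_mul _ h8 (abs_nonneg _) (by positivity)
        refine le_trans ?_ h7
        exact div_le_div_of_nonneg_right hμ (by positivity)
      · rw [abs_zero]
        exact mul_nonneg (by positivity) hnn
    refine le_trans h9 (le_of_eq ?_)
    rw [Finset.mul_sum, Finset.sum_mul]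
    apply Finset.sum_congr rfl
    intro d _
    have h10 : (s : ℝ) ^ (-(7 / 4) : ℝ) = (s : ℝ) ^ (-(5 / 4) : ℝ) * (s : ℝ) ^ (-(1 / 2) : ℝ) := by
      rw [← Real.rpow_add hs0]
      norm_num
    split_ifs
    · rw [h10]
      ring
    · ring

theorem fR_summable (R N : ℕ) (hN : 1 ≤ N) : Summable (fun s => ‖fR R N s‖) := by
  obtain ⟨C, _, h⟩ := majorant
  obtain ⟨B, b, hB0, hB, _, hf⟩ := h N hN
  refine Summable.of_nonneg_of_le (fun s => norm_nonneg _) (fun s => ?_) hB.summable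
  rw [Real.norm_eq_abs]
  refine le_trans (hf R s) ?_
  rcases Nat.eq_zero_or_pos s with h0 | h0
  · subst h0
    rw [Nat.cast_zero, Real.zero_rpow (by norm_num), mul_zero]
    exact hB0 0
  · have h1 : (s : ℝ) ^ (-(1 / 2) : ℝ) ≤ 1 :=
      Real.rpow_le_one_of_one_le_of_nonpos (by exact_mod_cast h0) (by norm_num)
    have := hB0 s
    nlinarith

theorem euler (R N : ℕ) (hR : 1 ≤ R) (hN : 1 ≤ N) (hE : Even N) :
    SS N = SPr R N * ∑' s, fR R N s := by
  classical
  have hgen : ∀ R' : ℕ, HasProd (fun p : Nat.Primes => 1 + fR R' N p) (∑' s, fR R' N s) := by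
    intro R'
    have h := EulerProduct.eulerProduct_hasProd (fR_one R' N) (fun {m n} h => fR_mul R' N h)
      (fR_summable R' N hN) (fR_zero R' N)
    have e : (fun p : Nat.Primes => ∑' e : ℕ, fR R' N ((p : ℕ) ^ e)) =
        fun p : Nat.Primes => 1 + fR R' N p := by
      funext p
      exact tsum_pow R' N p.2
    rw [← e]
    exact h
  have h1 := hgen 1
  have hS : ∑' s, fR 1 N s = SS N := by
    have h := (Pool.Agent.Helper87.GK.hSSB N hN hE).tsum_eq
    rw [← h]
    apply tsum_congr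
    intro s
    unfold fR
    rw [if_pos (Nat.coprime_one_right s)]
  rw [hS] at h1
  have hQ : HasProd (fun p : Nat.Primes => if (p : ℕ) ∣ R then spf N p else 1) (SPr R N) := by
    obtain ⟨S, hS1, hS2⟩ : ∃ S : Finset Nat.Primes, (∀ p : Nat.Primes, (p : ℕ) ∣ R → p ∈ S) ∧
        ∏ p ∈ S, (if (p : ℕ) ∣ R then spf N p else 1) = SPr R N := by
      refine ⟨R.primeFactors.subtype Nat.Prime, ?_, ?_⟩
      · intro p hpR
        exact Finset.mem_subtype.2 (Nat.mem_primeFactors.2 ⟨p.2, hpR, by omega⟩)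
      · unfold SPr
        refine (Finset.prod_subtype_eq_prod_filter (fun p : ℕ => if p ∣ R then spf N p else 1)).trans
          ?_
        have h4 : R.primeFactors.filter Nat.Prime = R.primeFactors :=
          Finset.filter_true_of_mem fun p hp => Nat.prime_of_mem_primeFactors hp
        rw [h4]
        apply Finset.prod_congr rfl
        intro p hp
        rw [if_pos (Nat.dvd_of_mem_primeFactors hp)]
    rw [← hS2]
    refine hasProd_prod_of_ne_finset_one (s := S) ?_
    intro p hp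
    rw [if_neg]
    intro hpR
    exact hp (hS1 p hpR)
  have h2 := hQ.mul (hgen R)
  have e : (fun p : Nat.Primes => (if (p : ℕ) ∣ R then spf N p else 1) * (1 + fR R N p)) =
      fun p : Nat.Primes => 1 + fR 1 N p := by
    funext p
    rw [fR_prime R N p.2, fR_prime 1 N p.2, if_neg (c := (p : ℕ) ∣ 1)]
    · split_ifs <;> ring
    · intro h
      exact p.2.one_lt.ne' (Nat.dvd_one.1 h)
  rw [e] at h2
  exact h1.unique h2

theorem GS_eq (R N : ℕ) (y : ℝ) : GS R y N = ∑ s ∈ Icc 1 ⌊y⌋₊, fR R N s := by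
  classical
  unfold GS
  rw [Finset.sum_filter]
  apply Finset.sum_congr rfl
  intro s _
  unfold fR
  by_cases h1 : Squarefree s
  · by_cases h2 : Nat.Coprime s R
    · rw [if_pos ⟨h1, h2⟩, if_pos h2]
      have h3 : (moebius s : ℝ) ^ 2 = 1 := by
        have := moebius_sq_eq_one_of_squarefree h1
        exact_mod_cast this
      rw [h3]
      ring
    · rw [if_neg fun h => h2 h.2, if_neg h2]
  · rw [if_neg fun h => h1 h.1, moebius_eq_zero_of_not_squarefree h1]
    split_ifs <;> simp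

end SER

open SER

theorem hSer : StSer := by
  obtain ⟨C, hC, hmaj⟩ := majorant
  have hC1 : 1 ≤ C1 := by
    unfold C1
    exact Real.one_le_exp (tsum_nonneg fun n => by positivity)
  refine ⟨2 * C1 + C, by linarith, fun R N y hR hN hE hy => ⟨?_, ?_, ?_⟩⟩
  · have h1 := partA R N y hN hE
    have h2 := (Pool.Agent.Helper29.GK.hSSA N hN).1
    nlinarith
  · obtain ⟨_, h2⟩ := SPr_bounds R N hE
    refine le_trans h2 (prod_wf_le N hN hE _ fun p hp => Nat.prime_of_mem_primeFactors hp)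
  · obtain ⟨B, b, hB0, hB, hb, hf⟩ := hmaj N hN
    have hP := (SPr_bounds R N hE).1
    rw [euler R N hR hN hE, ← mul_sub, abs_mul, abs_of_pos hP]
    set S : ℝ := ∑' s, fR R N s with hS
    have hfs : HasSum (fR R N) S := (fR_summable R N hN).of_norm.hasSum
    rw [GS_eq R N y]
    have h1 : HasSum (fun s => if s ∈ Icc 1 ⌊y⌋₊ then fR R N s else 0)
        (∑ s ∈ Icc 1 ⌊y⌋₊, fR R N s) := by
      have h2 : HasSum (fun s => if s ∈ Icc 1 ⌊y⌋₊ then fR R N s else 0)
          (∑ s ∈ Icc 1 ⌊y⌋₊, (if s ∈ Icc 1 ⌊y⌋₊ then fR R N s else 0)) :=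
        hasSum_sum_of_ne_finset_zero (fun s hs => if_neg hs)
      have h3 : ∑ s ∈ Icc 1 ⌊y⌋₊, (if s ∈ Icc 1 ⌊y⌋₊ then fR R N s else 0) =
          ∑ s ∈ Icc 1 ⌊y⌋₊, fR R N s :=
        Finset.sum_congr rfl fun s hs => if_pos hs
      rw [h3] at h2
      exact h2
    have h2 := h1.sub hfs
    have h3 : ∀ s : ℕ, ‖(if s ∈ Icc 1 ⌊y⌋₊ then fR R N s else 0) - fR R N s‖ ≤
        B s * y ^ (-(1 / 2) : ℝ) := by
      intro s
      by_cases hs : s ∈ Icc 1 ⌊y⌋₊
      · rw [if_pos hs, sub_self, norm_zero]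
        have := hB0 s
        positivity
      · rw [if_neg hs, zero_sub, norm_neg, Real.norm_eq_abs]
        rcases Nat.eq_zero_or_pos s with h0 | h0
        · subst h0
          rw [fR_zero, abs_zero]
          have := hB0 0
          positivity
        · refine le_trans (hf R s) (mul_le_mul_of_nonneg_left ?_ (hB0 s))
          rw [mem_Icc, not_and_or] at hs
          have h4 : ⌊y⌋₊ < s := by omega
          have h5 : y < s := (Nat.floor_lt hy.le).1 h4
          exact Real.rpow_le_rpow_of_nonpos hy h5.le (by norm_num)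
    have h4 := (hB.mul_right (y ^ (-(1 / 2) : ℝ)))
    have h5 : |∑ s ∈ Icc 1 ⌊y⌋₊, fR R N s - S| ≤ b * y ^ (-(1 / 2) : ℝ) := by
      rw [← Real.norm_eq_abs, ← h2.tsum_eq]
      exact tsum_of_norm_bounded h4 h3
    have h6 : 0 ≤ y ^ (-(1 / 2) : ℝ) := by positivity
    have h7 : b * y ^ (-(1 / 2) : ℝ) ≤ (2 * C1 + C) * (N.divisors.card : ℝ) * y ^ (-(1 / 2) : ℝ) := by
      apply mul_le_mul_of_nonneg_right _ h6
      have h8 : (0 : ℝ) ≤ (N.divisors.card : ℝ) := Nat.cast_nonneg _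
      nlinarith
    calc SPr R N * |∑ s ∈ Icc 1 ⌊y⌋₊, fR R N s - S| ≤
          SPr R N * ((2 * C1 + C) * (N.divisors.card : ℝ) * y ^ (-(1 / 2) : ℝ)) :=
          mul_le_mul_of_nonneg_left (le_trans h5 h7) hP.le
      _ = _ := by ring

end Pool.Agent.Helper83.MV
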