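import Pool.Agent.Helper23.MV.StC
import Pool.Agent.Helper29.GK.M_SSA
import Pool.Agent.Helper83.MV.M_SER

/-!
# Project MV: module KMN (main terms by positivity)
-/

set_option autoImplicit false

namespace Pool.Agent.Helper83.MV

open Finset
open Pool.Agent.Helper23.MV
open Pool.Agent.Helper23.GK (cR SS)

namespace KMN

/-- the trivial character -/
noncomputable def trv : PCh where
  r := 1
  hr := one_ne_zero
  χ := 1
  prim := DirichletCharacter.isPrimitive_one_level_one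

theorem trv_ev (n : ℕ) : trv.ev n = 1 := by
  unfold PCh.ev trv
  have h : ((n : ℕ) : ZMod 1) = 1 := Subsingleton.elim _ _
  simp only [h, map_one]

theorem eq_trv (t : PCh) (ht : t.χ = 1) : t = trv := by
  obtain ⟨r, hr, χ, prim⟩ := t
  have ht' : χ = (1 : DirichletCharacter ℂ r) := ht
  clear ht
  subst ht'
  have h1 : r = 1 := by
    have h2 := prim
    rw [DirichletCharacter.isPrimitive_def] at h2
    have : NeZero r := ⟨hr⟩
    exact h2.symm.trans DirichletCharacter.conductor_one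
  subst h1
  rfl

theorem ev_real (e : PCh) (he : e.χ ^ 2 = 1) (n : ℕ) : ∃ x : ℝ, e.ev n = x ∧ -1 ≤ x ∧ x ≤ 1 := by
  unfold PCh.ev
  by_cases hu : IsUnit (n : ZMod e.r)
  · have h1 : (e.χ ^ 2) (n : ZMod e.r) = 1 := by
      rw [he]
      exact MulChar.one_apply hu
    rw [MulChar.pow_apply' e.χ two_ne_zero] at h1
    have h2 : (e.χ (n : ZMod e.r) - 1) * (e.χ (n : ZMod e.r) + 1) = 0 := by
      linear_combination h1
    rcases mul_eq_zero.1 h2 with h3 | h3
    · exact ⟨1, by push_cast; linear_combination h3, by norm_num, by norm_num⟩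
    · exact ⟨-1, by push_cast; linear_combination h3, by norm_num, by norm_num⟩
  · exact ⟨0, by rw [e.χ.map_nonunit hu]; simp, by norm_num, by norm_num⟩

theorem pos_sum (e : PCh) (he : e.χ ^ 2 = 1) (u v : ℝ) (hu0 : 0 ≤ u) (hu1 : u ≤ 1) (hv0 : 0 ≤ v)
    (hv1 : v ≤ 1) (R N : ℕ) :
    (nu R N : ℝ) * ((1 - u) * (1 - v)) ≤ (nu R N : ℝ) - u * (tw e trv R N).re -
      v * (tw trv e R N).re + u * v * (tw e e R N).re := by
  classical
  choose x hx hx1 hx2 using ev_real e he
  unfold nu tw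
  simp only [trv_ev, hx, one_mul, mul_one]
  set A := (range R).filter (fun n => Nat.Coprime n R ∧ Nat.Coprime (N + (R - 1) * n) R) with hA
  have h1 : (∑ n ∈ A, ((x n : ℝ) : ℂ)).re = ∑ n ∈ A, x n := by
    rw [Complex.re_sum]
    exact Finset.sum_congr rfl fun n _ => Complex.ofReal_re _
  have h2 : (∑ n ∈ A, ((x (N + (R - 1) * n) : ℝ) : ℂ)).re = ∑ n ∈ A, x (N + (R - 1) * n) := by
    rw [Complex.re_sum]
    exact Finset.sum_congr rfl fun n _ => Complex.ofReal_re _
  have h3 : (∑ n ∈ A, ((x n : ℝ) : ℂ) * ((x (N + (R - 1) * n) : ℝ) : ℂ)).re =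
      ∑ n ∈ A, x n * x (N + (R - 1) * n) := by
    rw [Complex.re_sum]
    refine Finset.sum_congr rfl fun n _ => ?_
    rw [← Complex.ofReal_mul, Complex.ofReal_re]
  rw [h1, h2, h3]
  have h4 : (A.card : ℝ) = ∑ n ∈ A, (1 : ℝ) := by simp
  rw [h4, Finset.mul_sum, Finset.mul_sum, Finset.mul_sum, ← Finset.sum_sub_distrib,
    ← Finset.sum_sub_distrib, ← Finset.sum_add_distrib, Finset.sum_mul]
  apply Finset.sum_le_sum
  intro n _
  have h5 : (1 - u * x n) * (1 - v * x (N + (R - 1) * n)) =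
    1 - u * x n - v * x (N + (R - 1) * n) + u * v * (x n * x (N + (R - 1) * n)) := by ring
  rw [← h5, one_mul]
  have h6 : 1 - u ≤ 1 - u * x n := by
    have := mul_le_mul_of_nonneg_left (hx2 n) hu0
    linarith
  have h7 : 1 - v ≤ 1 - v * x (N + (R - 1) * n) := by
    have := mul_le_mul_of_nonneg_left (hx2 (N + (R - 1) * n)) hv0
    linarith
  exact mul_le_mul h6 h7 (by linarith) (by linarith)

/-- the error of one coefficient -/
theorem one_err (K G S SN ν E : ℝ) (w : ℂ) (hK : 0 ≤ K) (hS : 0 < S) (hw : ‖w‖ ≤ ν)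
    (hKν : K * ν = S) (hE : |S * G - SN| ≤ S * E) :
    ‖((K * G : ℝ) : ℂ) * (starRingEnd ℂ) w - ((K * (SN / S) : ℝ) : ℂ) * (starRingEnd ℂ) w‖ ≤
      S * E := by
  have h1 : ((K * G : ℝ) : ℂ) * (starRingEnd ℂ) w - ((K * (SN / S) : ℝ) : ℂ) * (starRingEnd ℂ) w =
      ((K * ((S * G - SN) / S) : ℝ) : ℂ) * (starRingEnd ℂ) w := by
    have h2 : K * ((S * G - SN) / S) = K * G - K * (SN / S) := by
      field_simp
    rw [h2]
    push_cast
    ring
  rw [h1, norm_mul, Complex.norm_real, Real.norm_eq_abs, RCLike.norm_conj, abs_mul, abs_of_nonneg hK,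
    abs_div, abs_of_pos hS]
  have h3 : |S * G - SN| / S ≤ E := by
    rw [div_le_iff₀ hS]
    linarith
  have hE0 : 0 ≤ |S * G - SN| / S := by positivity
  calc K * (|S * G - SN| / S) * ‖w‖ ≤ K * (|S * G - SN| / S) * ν :=
        mul_le_mul_of_nonneg_left hw (by positivity)
    _ = (|S * G - SN| / S) * (K * ν) := by ring
    _ ≤ E * (K * ν) := mul_le_mul_of_nonneg_right h3 (by rw [hKν]; exact hS.le)
    _ = S * E := by rw [hKν]; ring

end KMN

open KMN

theorem hKmn (hKfo : StKfo) (hTwb : StTwb) (hSer : StSer) : StKmn := by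
  classical
  obtain ⟨C, hC, hser⟩ := hSer
  refine ⟨7 * C, by linarith, fun t P N ht hP hN hE => ?_⟩
  have htt := eq_trv t ht
  subst htt
  have hP0 : 0 < P := by linarith
  have hSS1 : 1 ≤ SS N := (Pool.Agent.Helper29.GK.hSSA N hN).1
  have hτ0 : (0 : ℝ) ≤ (N.divisors.card : ℝ) := Nat.cast_nonneg _
  -- (i)
  have hi : ‖KK trv trv P N - ((SS N : ℝ) : ℂ)‖ ≤ C * (N.divisors.card : ℝ) * P ^ (-(1 / 2) : ℝ) := by
    have h1 := hKfo.1 trv trv P N hP
    have hl : Nat.lcm trv.r trv.r = 1 := by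
      rw [Nat.lcm_self]
      rfl
    have htw : tw trv trv 1 N = 1 := by
      unfold tw
      simp only [trv_ev, mul_one, Finset.sum_const, nsmul_eq_mul]
      have h3 : (range 1).filter (fun n => Nat.Coprime n 1 ∧ Nat.Coprime (N + (1 - 1) * n) 1) = {0} := by
        ext n
        simp
      rw [h3]
      simp
    rw [hl, htw] at h1
    have h2 := (hser 1 N P le_rfl hN hE hP0).2.2
    have hS : SPr 1 N = 1 := by
      unfold SPr
      simp
    rw [hS, one_mul, mul_one] at h2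
    rw [h1]
    have h3 : (((((1 : ℕ) : ℝ) / (Nat.totient 1 : ℝ) ^ 2 * GS 1 (P / ((1 : ℕ) : ℝ)) N : ℝ)) : ℂ) *
        (starRingEnd ℂ) 1 - ((SS N : ℝ) : ℂ) = ((GS 1 P N - SS N : ℝ) : ℂ) := by
      simp
    rw [h3, Complex.norm_real, Real.norm_eq_abs]
    exact h2
  refine ⟨le_trans hi ?_, ?_⟩
  · have h1 : 0 ≤ (N.divisors.card : ℝ) * P ^ (-(1 / 2) : ℝ) := by positivity
    nlinarith
  intro e u v he hr hu0 hu1 hv0 hv1
  have hr1 : 1 ≤ e.r := Nat.one_le_iff_ne_zero.2 e.hr
  have hr1' : (1 : ℝ) ≤ e.r := by exact_mod_cast hr1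
  have hr0 : (0 : ℝ) < e.r := by linarith
  have hy : 0 < P / e.r := by positivity
  have hytq : (P / e.r) ^ (-(1 / 2) : ℝ) ≤ P ^ (-(1 / 4) : ℝ) := by
    have h1 : P ^ (1 / 2 : ℝ) ≤ P / e.r := by
      rw [le_div_iff₀ hr0]
      have h2 : (e.r : ℝ) ≤ P ^ (1 / 2 : ℝ) := by
        rw [← Real.sqrt_eq_rpow]
        exact Real.le_sqrt_of_sq_le hr
      calc P ^ (1 / 2 : ℝ) * e.r ≤ P ^ (1 / 2 : ℝ) * P ^ (1 / 2 : ℝ) :=
            mul_le_mul_of_nonneg_left h2 (by positivity)
        _ = P := by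
            rw [← Real.rpow_add hP0]
            norm_num
    have h3 : (P / e.r) ^ (-(1 / 2) : ℝ) ≤ (P ^ (1 / 2 : ℝ)) ^ (-(1 / 2) : ℝ) :=
      Real.rpow_le_rpow_of_nonpos (by positivity) h1 (by norm_num)
    refine le_trans h3 (le_of_eq ?_)
    rw [← Real.rpow_mul hP0.le]
    norm_num
  have hP24 : P ^ (-(1 / 2) : ℝ) ≤ P ^ (-(1 / 4) : ℝ) :=
    Real.rpow_le_rpow_of_exponent_le hP (by norm_num)
  set R := e.r with hR
  set K : ℝ := (R : ℝ) / (Nat.totient R : ℝ) ^ 2 with hK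
  set G : ℝ := GS R (P / R) N with hG
  set S : ℝ := SPr R N with hS
  set ν : ℝ := (nu R N : ℝ) with hν
  have hS0 : 0 < S := (SER.SPr_bounds R N hE).1
  have hKν : K * ν = S := hTwb.2 R N hr1
  have hK0 : 0 ≤ K := by positivity
  obtain ⟨_, hs2, hs3⟩ := hser R N (P / R) hr1 hN hE hy
  set Er : ℝ := C * (N.divisors.card : ℝ) * (P / R) ^ (-(1 / 2) : ℝ) with hEr
  have hs3' : |S * G - SS N| ≤ S * Er := by
    refine le_trans hs3 (le_of_eq ?_)
    rw [hEr]
    ring
  have hlet : Nat.lcm e.r trv.r = R := Nat.lcm_one_right e.r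
  have hlte : Nat.lcm trv.r e.r = R := Nat.lcm_one_left e.r
  have hlee : Nat.lcm e.r e.r = R := Nat.lcm_self e.r
  have het := hKfo.1 e trv P N hP
  have hte := hKfo.1 trv e P N hP
  have hee := hKfo.1 e e P N hP
  rw [hlet, ← hK, ← hG] at het
  rw [hlte, ← hK, ← hG] at hte
  rw [hlee, ← hK, ← hG] at hee
  have e1 := one_err K G S (SS N) ν Er (tw e trv R N) hK0 hS0 (hTwb.1 e trv R N) hKν hs3'
  have e2 := one_err K G S (SS N) ν Er (tw trv e R N) hK0 hS0 (hTwb.1 trv e R N) hKν hs3'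
  have e3 := one_err K G S (SS N) ν Er (tw e e R N) hK0 hS0 (hTwb.1 e e R N) hKν hs3'
  rw [← het] at e1
  rw [← hte] at e2
  rw [← hee] at e3
  -- real parts
  set M : ℝ := K * (SS N / S) with hM
  have r0 : SS N - C * (N.divisors.card : ℝ) * P ^ (-(1 / 2) : ℝ) ≤ (KK trv trv P N).re := by
    have h := le_trans (Complex.abs_re_le_norm _) hi
    rw [Complex.sub_re, Complex.ofReal_re, abs_le] at h
    linarith [h.1]
  have hre : ∀ (w Z : ℂ), ‖Z - ((M : ℝ) : ℂ) * (starRingEnd ℂ) w‖ ≤ S * Er →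
      |Z.re - M * w.re| ≤ S * Er := by
    intro w Z h
    have h1 := le_trans (Complex.abs_re_le_norm _) h
    rw [Complex.sub_re, Complex.re_ofReal_mul, Complex.conj_re] at h1
    exact h1
  have r1 := abs_le.1 (hre _ _ e1)
  have r2 := abs_le.1 (hre _ _ e2)
  have r3 := abs_le.1 (hre _ _ e3)
  have hcomb : (KK trv trv P N - (u : ℂ) * KK e trv P N - (v : ℂ) * KK trv e P N +
      (u * v : ℂ) * KK e e P N).re = (KK trv trv P N).re - u * (KK e trv P N).re -
      v * (KK trv e P N).re + u * v * (KK e e P N).re := by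
    rw [← Complex.ofReal_mul, Complex.add_re, Complex.sub_re, Complex.sub_re,
      Complex.re_ofReal_mul, Complex.re_ofReal_mul, Complex.re_ofReal_mul]
  rw [hcomb]
  have hpos := pos_sum e he.1 u v hu0 hu1 hv0 hv1 R N
  rw [← hν] at hpos
  have hM0 : 0 ≤ M := by
    have : 0 ≤ SS N := by linarith
    positivity
  have hMν : M * ν = SS N := by
    rw [hM]
    calc K * (SS N / S) * ν = (K * ν) * (SS N / S) := by ring
      _ = S * (SS N / S) := by rw [hKν]
      _ = SS N := by field_simp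
  have hposM := mul_le_mul_of_nonneg_left hpos hM0
  -- errors
  have hEr0 : 0 ≤ Er := by positivity
  have hEr1 : S * Er ≤ 2 * SS N * (C * (N.divisors.card : ℝ) * P ^ (-(1 / 4) : ℝ)) := by
    apply mul_le_mul hs2 _ hEr0 (by linarith)
    exact mul_le_mul_of_nonneg_left hytq (by positivity)
  set Q : ℝ := C * (N.divisors.card : ℝ) * P ^ (-(1 / 4) : ℝ) with hQ
  have hQ0 : 0 ≤ Q := by positivity
  have hi2 : C * (N.divisors.card : ℝ) * P ^ (-(1 / 2) : ℝ) ≤ Q :=
    mul_le_mul_of_nonneg_left hP24 (by positivity)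
  have hi3 : Q ≤ SS N * Q := by nlinarith
  have hSE : 0 ≤ S * Er := by positivity
  have q1 : u * (KK e trv P N).re ≤ u * (M * (tw e trv R N).re) + S * Er := by
    have : u * ((KK e trv P N).re - M * (tw e trv R N).re) ≤ 1 * (S * Er) := by
      calc u * ((KK e trv P N).re - M * (tw e trv R N).re) ≤ u * (S * Er) :=
            mul_le_mul_of_nonneg_left r1.2 hu0
        _ ≤ 1 * (S * Er) := mul_le_mul_of_nonneg_right hu1 hSE
    linarith
  have q2 : v * (KK trv e P N).re ≤ v * (M * (tw trv e R N).re) + S * Er := by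
    have : v * ((KK trv e P N).re - M * (tw trv e R N).re) ≤ 1 * (S * Er) := by
      calc v * ((KK trv e P N).re - M * (tw trv e R N).re) ≤ v * (S * Er) :=
            mul_le_mul_of_nonneg_left r2.2 hv0
        _ ≤ 1 * (S * Er) := mul_le_mul_of_nonneg_right hv1 hSE
    linarith
  have q3 : u * v * (M * (tw e e R N).re) - S * Er ≤ u * v * (KK e e P N).re := by
    have huv : u * v ≤ 1 := by nlinarith
    have huv0 : 0 ≤ u * v := mul_nonneg hu0 hv0
    have : u * v * (M * (tw e e R N).re - (KK e e P N).re) ≤ 1 * (S * Er) := by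
      calc u * v * (M * (tw e e R N).re - (KK e e P N).re) ≤ u * v * (S * Er) :=
            mul_le_mul_of_nonneg_left (by linarith [r3.1]) huv0
        _ ≤ 1 * (S * Er) := mul_le_mul_of_nonneg_right huv hSE
    linarith
  have hfin : 7 * C * SS N * (N.divisors.card : ℝ) * P ^ (-(1 / 4) : ℝ) = 7 * (SS N * Q) := by
    rw [hQ]
    ring
  rw [hfin]
  have hexp : M * (ν - u * (tw e trv R N).re - v * (tw trv e R N).re + u * v * (tw e e R N).re) =
      SS N - u * (M * (tw e trv R N).re) - v * (M * (tw trv e R N).re) +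
        u * v * (M * (tw e e R N).re) := by
    rw [← hMν]
    ring
  have hexp2 : M * (ν * ((1 - u) * (1 - v))) = (1 - u) * (1 - v) * SS N := by
    rw [← hMν]
    ring
  rw [hexp, hexp2] at hposM
  linarith

end Pool.Agent.Helper83.MV
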