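import Pool.Agent.Helper83.MV.Com

/-!
# Project MV: module TF1
-/

set_option autoImplicit false

namespace Pool.Agent.Helper83.MV

open Finset
open Pool.Agent.Helper23.MV

private theorem re_lt_one (c : PCh) (hc : c.χ ≠ 1) (ρ : ℂ) (h : c.L ρ = 0) : ρ.re < 1 := by
  by_contra hcon
  push Not at hcon
  exact DirichletCharacter.LFunction_ne_zero_of_one_le_re c.χ (Or.inl hc) hcon h

/-- the algebra of the case `c = e` -/
private theorem alg (y : ℝ) (N : ℕ) (hy : 0 < y) (f : ℕ → ℂ) (ρ w : ℂ) (δ : ℝ) (hw : w = ρ + δ)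
    (k D : ℂ) (hD : D = ∑ a ∈ Ioc 0 N, f a * (a : ℂ) ^ (-ρ)) (z : ℕ → ℂ) (z0 : ℂ)
    (u : ℝ) :
    ∑ a ∈ Ioc 0 N, f a * (a : ℂ) ^ (-ρ) * z a - D * z0 =
      ∑ a ∈ Ioc 0 N, f a * (a : ℂ) ^ (-ρ) *
        ((z a - k * (((y / a : ℝ) : ℂ) ^ (1 - w) / (1 - w))) - (z0 - k * ((u : ℂ) ^ (1 - w) / (1 - w)))) +
      k * ((y : ℂ) ^ (1 - w) / (1 - w)) * ∑ a ∈ Ioc 0 N, f a * (a : ℂ) ^ (-(1 - (δ : ℂ))) -
      k * ((u : ℂ) ^ (1 - w) / (1 - w)) * D := by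
  have h1 : k * ((y : ℂ) ^ (1 - w) / (1 - w)) * ∑ a ∈ Ioc 0 N, f a * (a : ℂ) ^ (-(1 - (δ : ℂ))) =
      ∑ a ∈ Ioc 0 N, f a * (a : ℂ) ^ (-ρ) * (k * (((y / a : ℝ) : ℂ) ^ (1 - w) / (1 - w))) := by
    rw [Finset.mul_sum]
    apply Finset.sum_congr rfl
    intro a ha
    rw [mem_Ioc] at ha
    rw [div_cpow y a (1 - w) hy ha.1]
    have ha0 : (a : ℂ) ≠ 0 := by exact_mod_cast ha.1.ne'
    have h2 : (a : ℂ) ^ (-(1 - (δ : ℂ))) = (a : ℂ) ^ (-ρ) * (a : ℂ) ^ (-(1 - w)) := by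
      rw [← Complex.cpow_add _ _ ha0]
      congr 1
      rw [hw]
      ring
    rw [h2]
    ring
  rw [h1, hD, Finset.sum_mul, Finset.mul_sum, ← Finset.sum_sub_distrib, ← Finset.sum_add_distrib,
    ← Finset.sum_sub_distrib]
  apply Finset.sum_congr rfl
  intro a _
  ring

theorem hTf1 (hTr1 : StTr1) (hTr2 : StTr2) (hPrd : StPrd) (hHyp : StHyp) : StTf1 := by
  intro κ hκ hκ1
  obtain ⟨c1, X1, hc1, hc1κ, hX1, H1⟩ := hTr1 (κ / 2) (by linarith) (by linarith)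
  obtain ⟨c2, X2, hc2, hc2κ, hX2, H2⟩ := hTr2 (κ / 2) (by linarith) (by linarith)
  set m : ℝ := min c1 c2 with hm
  have hm0 : 0 < m := lt_min hc1 hc2
  have hmc1 : m ≤ c1 := min_le_left _ _
  have hmc2 : m ≤ c2 := min_le_right _ _
  obtain ⟨X3, hX3, H3⟩ := exists_X0 (m / 8) (by linarith)
  refine ⟨m / 8, max X3 (max X1 X2), by linarith, by linarith, ?_, ?_⟩
  · exact le_trans hX3 (le_max_left _ _)
  intro X y c e δ ρ hX hcr her heRe hcχ hδ0 hδ hL hρ hρim hce hκy hyX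
  have hXX3 : X3 ≤ X := le_trans (le_max_left _ _) hX
  have hXX1 : X1 ≤ X := le_trans (le_trans (le_max_left _ _) (le_max_right _ _)) hX
  have hXX2 : X2 ≤ X := le_trans (le_trans (le_max_right _ _) (le_max_right _ _)) hX
  have hX2' : 2 ≤ X := le_trans hX3 hXX3
  have hXpos : 0 < X := by linarith
  obtain ⟨h8, hlog⟩ := H3 X hXX3
  set s0 : ℝ := m / 8 with hs0
  have hs0pos : 0 < s0 := by linarith
  have hy1 : 1 ≤ y := le_trans (Real.one_le_rpow (by linarith) hκ.le) hκy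
  have hypos : 0 < y := by linarith
  have hsq : X ^ (κ / 2) ≤ √y := sqrt_rpow_le X κ y hXpos hκy
  have hsq1 : 1 ≤ √y := by rw [Real.one_le_sqrt]; exact hy1
  have hsqX : √y ≤ X := by
    have h2 : √y ≤ y := by
      rw [Real.sqrt_le_left (by linarith)]
      nlinarith
    linarith
  have hNX : (⌊√y⌋₊ : ℝ) ≤ X := floor_sqrt_le X y hy1 hyX
  have hρ1 : ρ.re < 1 := re_lt_one c hcχ ρ hL
  -- the character ψ
  obtain ⟨ψ, hψ1, hψv⟩ := hPrd.2.2 c e heRe.1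
  have hXle : ∀ a b : ℝ, a ≤ b → X ^ a ≤ X ^ b := fun a b hab =>
    Real.rpow_le_rpow_of_exponent_le (by linarith) hab
  have hXX2' : X ≤ X ^ 2 := by nlinarith
  have : NeZero c.r := ⟨c.hr⟩
  have : NeZero e.r := ⟨e.hr⟩
  have : NeZero (c.r * e.r) := ⟨Nat.mul_ne_zero c.hr e.hr⟩
  have hqr : ((c.r * e.r : ℕ) : ℝ) ≤ X ^ m := by
    push_cast
    calc (c.r : ℝ) * e.r ≤ X ^ s0 * X ^ s0 :=
          mul_le_mul hcr her (Nat.cast_nonneg _) (Real.rpow_nonneg hXpos.le _)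
      _ = X ^ (s0 + s0) := by rw [Real.rpow_add hXpos]
      _ ≤ X ^ m := hXle _ _ (by linarith)
  -- D_c(v) is small
  have hDc : ∀ v : ℝ, √y ≤ v → ‖DS c.χ v ρ‖ ≤ X ^ (-m) := by
    intro v hv
    have h := H1 X v c.r c.χ ρ hXX1 (le_trans hcr (hXle _ _ (by linarith))) (le_trans hsq hv) hcχ
      (by linarith) (by linarith) (by linarith)
    have h0 : DirichletCharacter.LFunction c.χ ρ = 0 := hL
    rw [h0, sub_zero] at h
    exact le_trans h (hXle _ _ (by linarith))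
  have hcn : ∀ a ∈ Ioc 0 ⌊√y⌋₊, ‖c.ev a * (a : ℂ) ^ (-ρ)‖ ≤ (a : ℝ) ^ (-ρ.re) := by
    intro a ha
    rw [mem_Ioc] at ha
    exact norm_char_cpow c.χ a ha.1 ρ
  have hψn : ∀ a ∈ Ioc 0 ⌊√y⌋₊, ‖ψ (a : ZMod (c.r * e.r)) * (a : ℂ) ^ (-ρ - δ)‖ ≤
      (a : ℝ) ^ (-(ρ.re + δ)) := by
    intro a ha
    rw [mem_Ioc] at ha
    have h := norm_char_cpow ψ a ha.1 (ρ + δ)
    rw [Complex.add_re, Complex.ofReal_re] at h
    have h2 : -ρ - (δ : ℂ) = -(ρ + δ) := by ring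
    rw [h2]
    exact h
  have hm' : 0 ≤ X ^ (-m) := Real.rpow_nonneg hXpos.le _
  have hlog0 : 0 ≤ Real.log X := Real.log_nonneg (by linarith)
  -- the second sum
  have hS2 : ‖∑ b ∈ Ioc 0 ⌊√y⌋₊, ψ (b : ZMod (c.r * e.r)) * (b : ℂ) ^ (-ρ - δ) *
      DS c.χ (y / b) ρ‖ ≤ X ^ s0 * (1 + Real.log X) * X ^ (-m) := by
    refine norm_sum_bd X (ρ.re + δ) s0 (X ^ (-m)) _ _ _ (by linarith) hNX hs0pos.le (by linarith)
      hψn ?_ hm'
    intro a ha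
    exact hDc _ (le_div_floor y a hy1 ha)
  -- the first sum minus the last term
  have hS1 : ‖∑ a ∈ Ioc 0 ⌊√y⌋₊, c.ev a * (a : ℂ) ^ (-ρ) * DS ψ (y / a) (ρ + δ) -
      DS c.χ (√y) ρ * DS ψ (√y) (ρ + δ)‖ ≤ X ^ s0 * (1 + Real.log X) * (2 * X ^ (-m)) +
        2 * X ^ (2 * s0) * X ^ (-m) := by
    have hDdef : DS c.χ (√y) ρ = ∑ a ∈ Ioc 0 ⌊√y⌋₊, c.ev a * (a : ℂ) ^ (-ρ) := rfl
    have hre : (ρ + (δ : ℂ)).re = ρ.re + δ := by simp
    have him : (ρ + (δ : ℂ)).im = ρ.im := by simp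
    by_cases hψ : ψ = 1
    · have hce' := hψ1.mp hψ
      obtain ⟨hL1, hfar⟩ := hce hce'
      have hw1 : (1 : ℂ) - (ρ + δ) ≠ 0 := by
        intro h0
        have h2 : ρ + (δ : ℂ) - 1 = 0 := by linear_combination -h0
        rw [h2, norm_zero] at hfar
        have := Real.rpow_pos_of_pos hXpos (-s0)
        linarith
      have hw1' : ρ + (δ : ℂ) ≠ 1 := by
        intro h0
        apply hw1
        rw [h0]
        ring
      obtain ⟨k, hk⟩ : ∃ k : ℂ, k = (((c.r * e.r).totient : ℂ) / ((c.r * e.r : ℕ) : ℂ)) := ⟨_, rfl⟩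
      have hk1 : ‖k‖ ≤ 1 := by
        rw [hk, norm_div, Complex.norm_natCast, Complex.norm_natCast]
        have hq : (0 : ℝ) < ((c.r * e.r : ℕ) : ℝ) := by exact_mod_cast NeZero.pos (c.r * e.r)
        rw [div_le_one hq]
        exact_mod_cast Nat.totient_le _
      -- TR2
      set Lv : ℂ := DirichletCharacter.LFunction ψ (ρ + δ) with hLv
      have hT2 : ∀ v : ℝ, √y ≤ v → ‖(DS ψ v (ρ + δ) - k * ((v : ℂ) ^ (1 - (ρ + δ)) / (1 - (ρ + δ)))) -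
          Lv‖ ≤ X ^ (-m) := by
        intro v hv
        have h := H2 X v (c.r * e.r) (ρ + δ) hXX2 (le_trans hqr (hXle _ _ (by linarith)))
          (le_trans hsq hv) hw1' (by rw [hre]; linarith) (by rw [hre]; linarith)
          (by rw [him]; linarith)
        rw [← hψ] at h
        have h2 : (DS ψ v (ρ + δ) - k * ((v : ℂ) ^ (1 - (ρ + δ)) / (1 - (ρ + δ)))) - Lv =
          DS ψ v (ρ + δ) - DirichletCharacter.LFunction ψ (ρ + δ) -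
            k * ((v : ℂ) ^ (1 - (ρ + δ)) / (1 - (ρ + δ))) := by
          rw [hLv]
          ring
        rw [h2, hk]
        exact le_trans h (hXle _ _ (by linarith))
      rw [alg y ⌊√y⌋₊ hypos (fun a => c.ev a) ρ (ρ + δ) δ rfl k (DS c.χ (√y) ρ) hDdef
        (fun a => DS ψ (y / a) (ρ + δ)) (DS ψ (√y) (ρ + δ)) (√y)]
      have hA : ‖∑ a ∈ Ioc 0 ⌊√y⌋₊, c.ev a * (a : ℂ) ^ (-ρ) *
          ((DS ψ (y / a) (ρ + δ) - k * (((y / a : ℝ) : ℂ) ^ (1 - (ρ + δ)) / (1 - (ρ + δ)))) -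
          (DS ψ (√y) (ρ + δ) - k * (((√y : ℝ) : ℂ) ^ (1 - (ρ + δ)) / (1 - (ρ + δ)))))‖ ≤
          X ^ s0 * (1 + Real.log X) * (2 * X ^ (-m)) := by
        refine norm_sum_bd X ρ.re s0 (2 * X ^ (-m)) _ _ _ (by linarith) hNX hs0pos.le (by linarith)
          hcn ?_ (by linarith)
        intro a ha
        have h1 := hT2 (y / a) (le_div_floor y a hy1 ha)
        have h2 := hT2 (√y) le_rfl
        have h3 := norm_sub_le ((DS ψ (y / a) (ρ + δ) - k * (((y / a : ℝ) : ℂ) ^ (1 - (ρ + δ)) / (1 - (ρ + δ)))) -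
          Lv) ((DS ψ (√y) (ρ + δ) - k * (((√y : ℝ) : ℂ) ^ (1 - (ρ + δ)) / (1 - (ρ + δ)))) -
          Lv)
        rw [sub_sub_sub_cancel_right] at h3
        linarith
      have hpw : ∀ v : ℝ, 1 ≤ v → v ≤ X →
          ‖k * ((v : ℂ) ^ (1 - (ρ + δ)) / (1 - (ρ + δ)))‖ ≤ X ^ (2 * s0) := by
        intro v hv hvX
        rw [norm_mul, norm_div]
        have h1 : ‖(v : ℂ) ^ (1 - (ρ + δ))‖ ≤ X ^ s0 := by
          apply norm_cpow_le X v s0 _ hv hvX hs0pos.le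
          rw [Complex.sub_re, Complex.one_re, hre]
          linarith
        have h2 : X ^ (-s0) ≤ ‖(1 : ℂ) - (ρ + δ)‖ := by
          rw [← norm_neg]
          have : -((1 : ℂ) - (ρ + δ)) = ρ + δ - 1 := by ring
          rw [this]
          exact hfar
        have h3 : 0 < X ^ (-s0) := Real.rpow_pos_of_pos hXpos _
        have h4 : ‖(v : ℂ) ^ (1 - (ρ + δ))‖ / ‖(1 : ℂ) - (ρ + δ)‖ ≤ X ^ s0 / X ^ (-s0) :=
          div_le_div₀ (Real.rpow_nonneg hXpos.le _) h1 h3 h2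
        have h5 : X ^ s0 / X ^ (-s0) = X ^ (2 * s0) := by
          rw [← Real.rpow_sub hXpos]
          congr 1
          ring
        rw [h5] at h4
        have h6 : 0 ≤ ‖(v : ℂ) ^ (1 - (ρ + δ))‖ / ‖(1 : ℂ) - (ρ + δ)‖ := by positivity
        calc ‖k‖ * (‖(v : ℂ) ^ (1 - (ρ + δ))‖ / ‖(1 : ℂ) - (ρ + δ)‖) ≤
              1 * (‖(v : ℂ) ^ (1 - (ρ + δ))‖ / ‖(1 : ℂ) - (ρ + δ)‖) :=
              mul_le_mul_of_nonneg_right hk1 h6
          _ ≤ X ^ (2 * s0) := by rw [one_mul]; exact h4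
      have hB1 : ‖∑ a ∈ Ioc 0 ⌊√y⌋₊, c.ev a * (a : ℂ) ^ (-(1 - (δ : ℂ)))‖ ≤ X ^ (-m) := by
        have h := H1 X (√y) c.r c.χ (1 - δ) hXX1 (le_trans hcr (hXle _ _ (by linarith))) hsq hcχ
          (by simp; linarith) (by simp; linarith) (by simp; positivity)
        have h00 : c.L (1 - (δ : ℂ)) = 0 := by
          rw [hce']
          exact hL1
        have h0 : DirichletCharacter.LFunction c.χ (1 - (δ : ℂ)) = 0 := h00
        rw [h0, sub_zero] at h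
        exact le_trans h (hXle _ _ (by linarith))
      have hB : ‖k * ((y : ℂ) ^ (1 - (ρ + δ)) / (1 - (ρ + δ))) *
          ∑ a ∈ Ioc 0 ⌊√y⌋₊, c.ev a * (a : ℂ) ^ (-(1 - (δ : ℂ)))‖ ≤ X ^ (2 * s0) * X ^ (-m) := by
        rw [norm_mul]
        exact mul_le_mul (hpw y hy1 hyX) hB1 (norm_nonneg _) (Real.rpow_nonneg hXpos.le _)
      have hC : ‖k * (((√y : ℝ) : ℂ) ^ (1 - (ρ + δ)) / (1 - (ρ + δ))) * DS c.χ (√y) ρ‖ ≤
          X ^ (2 * s0) * X ^ (-m) := by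
        rw [norm_mul]
        exact mul_le_mul (hpw (√y) hsq1 hsqX) (hDc _ le_rfl) (norm_nonneg _)
          (Real.rpow_nonneg hXpos.le _)
      refine le_trans (norm_sub_le _ _) ?_
      have h7 := norm_add_le (∑ a ∈ Ioc 0 ⌊√y⌋₊, c.ev a * (a : ℂ) ^ (-ρ) *
          ((DS ψ (y / a) (ρ + δ) - k * (((y / a : ℝ) : ℂ) ^ (1 - (ρ + δ)) / (1 - (ρ + δ)))) -
          (DS ψ (√y) (ρ + δ) - k * (((√y : ℝ) : ℂ) ^ (1 - (ρ + δ)) / (1 - (ρ + δ))))))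
        (k * ((y : ℂ) ^ (1 - (ρ + δ)) / (1 - (ρ + δ))) *
          ∑ a ∈ Ioc 0 ⌊√y⌋₊, c.ev a * (a : ℂ) ^ (-(1 - (δ : ℂ))))
      linarith
    · have hT1 : ∀ v : ℝ, √y ≤ v → ‖DS ψ v (ρ + δ) - DirichletCharacter.LFunction ψ (ρ + δ)‖ ≤
          X ^ (-m) := by
        intro v hv
        have h := H1 X v (c.r * e.r) ψ (ρ + δ) hXX1 (le_trans hqr (hXle _ _ (by linarith)))
          (le_trans hsq hv) hψ (by rw [hre]; linarith) (by rw [hre]; linarith)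
          (by rw [him]; linarith)
        exact le_trans h (hXle _ _ (by linarith))
      have hEq : ∑ a ∈ Ioc 0 ⌊√y⌋₊, c.ev a * (a : ℂ) ^ (-ρ) * DS ψ (y / a) (ρ + δ) -
          DS c.χ (√y) ρ * DS ψ (√y) (ρ + δ) = ∑ a ∈ Ioc 0 ⌊√y⌋₊, c.ev a * (a : ℂ) ^ (-ρ) *
          (DS ψ (y / a) (ρ + δ) - DS ψ (√y) (ρ + δ)) := by
        rw [hDdef, Finset.sum_mul, ← Finset.sum_sub_distrib]
        apply Finset.sum_congr rfl
        intro a _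
        ring
      rw [hEq]
      have hA : ‖∑ a ∈ Ioc 0 ⌊√y⌋₊, c.ev a * (a : ℂ) ^ (-ρ) *
          (DS ψ (y / a) (ρ + δ) - DS ψ (√y) (ρ + δ))‖ ≤
          X ^ s0 * (1 + Real.log X) * (2 * X ^ (-m)) := by
        refine norm_sum_bd X ρ.re s0 (2 * X ^ (-m)) _ _ _ (by linarith) hNX hs0pos.le (by linarith)
          hcn ?_ (by linarith)
        intro a ha
        have h1 := hT1 (y / a) (le_div_floor y a hy1 ha)
        have h2 := hT1 (√y) le_rfl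
        have h3 := norm_sub_le (DS ψ (y / a) (ρ + δ) - DirichletCharacter.LFunction ψ (ρ + δ))
          (DS ψ (√y) (ρ + δ) - DirichletCharacter.LFunction ψ (ρ + δ))
        rw [sub_sub_sub_cancel_right] at h3
        linarith
      have : 0 ≤ 2 * X ^ (2 * s0) * X ^ (-m) := by positivity
      linarith
  rw [hHyp c e δ ψ y ρ heRe.1 hψv hy1]
  have hfin : ‖∑ a ∈ Ioc 0 ⌊√y⌋₊, c.ev a * (a : ℂ) ^ (-ρ) * DS ψ (y / a) (ρ + δ) +
      ∑ b ∈ Ioc 0 ⌊√y⌋₊, ψ (b : ZMod (c.r * e.r)) * (b : ℂ) ^ (-ρ - δ) * DS c.χ (y / b) ρ -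
      DS c.χ (√y) ρ * DS ψ (√y) (ρ + δ)‖ ≤ X ^ s0 * (1 + Real.log X) * (2 * X ^ (-m)) +
        2 * X ^ (2 * s0) * X ^ (-m) + X ^ s0 * (1 + Real.log X) * X ^ (-m) := by
    have h := norm_add_le (∑ a ∈ Ioc 0 ⌊√y⌋₊, c.ev a * (a : ℂ) ^ (-ρ) * DS ψ (y / a) (ρ + δ) -
      DS c.χ (√y) ρ * DS ψ (√y) (ρ + δ)) (∑ b ∈ Ioc 0 ⌊√y⌋₊, ψ (b : ZMod (c.r * e.r)) *
        (b : ℂ) ^ (-ρ - δ) * DS c.χ (y / b) ρ)
    have h2 : ∑ a ∈ Ioc 0 ⌊√y⌋₊, c.ev a * (a : ℂ) ^ (-ρ) * DS ψ (y / a) (ρ + δ) +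
      ∑ b ∈ Ioc 0 ⌊√y⌋₊, ψ (b : ZMod (c.r * e.r)) * (b : ℂ) ^ (-ρ - δ) * DS c.χ (y / b) ρ -
      DS c.χ (√y) ρ * DS ψ (√y) (ρ + δ) = (∑ a ∈ Ioc 0 ⌊√y⌋₊, c.ev a * (a : ℂ) ^ (-ρ) *
        DS ψ (y / a) (ρ + δ) - DS c.χ (√y) ρ * DS ψ (√y) (ρ + δ)) +
        ∑ b ∈ Ioc 0 ⌊√y⌋₊, ψ (b : ZMod (c.r * e.r)) * (b : ℂ) ^ (-ρ - δ) * DS c.χ (y / b) ρ := by
      ring
    rw [h2]
    linarith
  refine le_trans hfin ?_
  -- final estimate
  set P : ℝ := X ^ s0 with hP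
  have hP0 : 0 < P := Real.rpow_pos_of_pos hXpos _
  have hPm : X ^ (-m) = (P ^ 8)⁻¹ := by
    rw [hP, ← Real.rpow_natCast, ← Real.rpow_mul hXpos.le, ← Real.rpow_neg hXpos.le]
    congr 1
    push_cast
    rw [hs0]
    ring
  have hP2 : X ^ (2 * s0) = P ^ 2 := by
    rw [hP, ← Real.rpow_natCast, ← Real.rpow_mul hXpos.le]
    congr 1
    push_cast
    ring
  have hPn : X ^ (-s0) = P⁻¹ := by rw [hP, Real.rpow_neg hXpos.le]
  rw [hPm, hP2, hPn]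
  have h8' : 0 < P ^ 8 := by positivity
  have h1 : P * (1 + Real.log X) * (2 * (P ^ 8)⁻¹) + 2 * P ^ 2 * (P ^ 8)⁻¹ +
      P * (1 + Real.log X) * (P ^ 8)⁻¹ ≤ 5 * P ^ 2 * (P ^ 8)⁻¹ := by
    have h2 : P * (1 + Real.log X) ≤ P ^ 2 := by nlinarith
    have h3 : 0 < (P ^ 8)⁻¹ := inv_pos.mpr h8'
    nlinarith
  refine le_trans h1 ?_
  rw [← div_eq_mul_inv, div_le_iff₀ h8', inv_mul_eq_div, le_div_iff₀ hP0]
  have h4 : 5 * P ^ 2 * P = 5 * P ^ 3 := by ring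
  rw [h4]
  have h5 : P ^ 8 = P ^ 5 * P ^ 3 := by ring
  rw [h5]
  apply mul_le_mul_of_nonneg_right _ (by positivity)
  have h6 : (5 : ℝ) ≤ P := by linarith
  calc (5 : ℝ) ≤ P := h6
    _ = P ^ 1 := (pow_one P).symm
    _ ≤ P ^ 5 := pow_le_pow_right₀ (by linarith) (by norm_num)

end Pool.Agent.Helper83.MV
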