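import Pool.Agent.Helper83.MV.Com

/-!
# Project MV: module TF3
-/

set_option autoImplicit false

namespace Pool.Agent.Helper83.MV

open Finset
open Pool.Agent.Helper23.MV

/-- the trivial character as a primitive character -/
noncomputable def trv : PCh where
  r := 1
  hr := one_ne_zero
  χ := 1
  prim := DirichletCharacter.isPrimitive_one_level_one

theorem trv_ev (n : ℕ) : trv.ev n = 1 := by
  unfold PCh.ev trv
  have h : ((n : ℕ) : ZMod 1) = 1 := Subsingleton.elim _ _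
  simp only [h, map_one]

private theorem alg3 (y : ℝ) (N : ℕ) (hy : 0 < y) (f : ℕ → ℂ) (p w p' : ℂ) (hw : p' = p + (1 - w))
    (k D : ℂ) (hD : D = ∑ a ∈ Ioc 0 N, f a * (a : ℂ) ^ (-p)) (z : ℕ → ℂ) (z0 : ℂ)
    (u : ℝ) :
    ∑ a ∈ Ioc 0 N, f a * (a : ℂ) ^ (-p) * z a - D * z0 =
      ∑ a ∈ Ioc 0 N, f a * (a : ℂ) ^ (-p) *
        ((z a - k * (((y / a : ℝ) : ℂ) ^ (1 - w) / (1 - w))) - (z0 - k * ((u : ℂ) ^ (1 - w) / (1 - w)))) +
      k * ((y : ℂ) ^ (1 - w) / (1 - w)) * ∑ a ∈ Ioc 0 N, f a * (a : ℂ) ^ (-p') -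
      k * ((u : ℂ) ^ (1 - w) / (1 - w)) * D := by
  have h1 : k * ((y : ℂ) ^ (1 - w) / (1 - w)) * ∑ a ∈ Ioc 0 N, f a * (a : ℂ) ^ (-p') =
      ∑ a ∈ Ioc 0 N, f a * (a : ℂ) ^ (-p) * (k * (((y / a : ℝ) : ℂ) ^ (1 - w) / (1 - w))) := by
    rw [Finset.mul_sum]
    apply Finset.sum_congr rfl
    intro a ha
    rw [mem_Ioc] at ha
    rw [div_cpow y a (1 - w) hy ha.1]
    have ha0 : (a : ℂ) ≠ 0 := by exact_mod_cast ha.1.ne'
    have h2 : (a : ℂ) ^ (-p') = (a : ℂ) ^ (-p) * (a : ℂ) ^ (-(1 - w)) := by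
      rw [← Complex.cpow_add _ _ ha0]
      congr 1
      rw [hw]
      ring
    rw [h2]
    ring
  rw [h1, hD, Finset.sum_mul, Finset.mul_sum, ← Finset.sum_sub_distrib, ← Finset.sum_add_distrib,
    ← Finset.sum_sub_distrib]
  apply Finset.sum_congr rfl
  intro a _
  ring

theorem hTf3 (hTr1 : StTr1) (hTr2 : StTr2) (hPrd : StPrd) (hHyp : StHyp) : StTf3 := by
  intro κ hκ hκ1
  obtain ⟨c1, X1, hc1, hc1κ, hX1, H1⟩ := hTr1 (κ / 2) (by linarith) (by linarith)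
  obtain ⟨c2, X2, hc2, hc2κ, hX2, H2⟩ := hTr2 (κ / 2) (by linarith) (by linarith)
  set m : ℝ := min c1 c2 with hm
  have hm0 : 0 < m := lt_min hc1 hc2
  have hmc1 : m ≤ c1 := min_le_left _ _
  have hmc2 : m ≤ c2 := min_le_right _ _
  obtain ⟨X3, hX3, H3⟩ := exists_X0 (m / 8) (by linarith)
  refine ⟨m / 8, max X3 (max X1 X2), by linarith, by linarith, ?_, ?_⟩
  · exact le_trans hX3 (le_max_left _ _)
  intro X y e δ hX her heRe hδ0 hδ hL hκy hyX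
  have hXX3 : X3 ≤ X := le_trans (le_max_left _ _) hX
  have hXX1 : X1 ≤ X := le_trans (le_trans (le_max_left _ _) (le_max_right _ _)) hX
  have hXX2 : X2 ≤ X := le_trans (le_trans (le_max_right _ _) (le_max_right _ _)) hX
  have hX2' : 2 ≤ X := le_trans hX3 hXX3
  have hXpos : 0 < X := by linarith
  obtain ⟨h8, hlog⟩ := H3 X hXX3
  set s0 : ℝ := m / 8 with hs0
  have hs0pos : 0 < s0 := by linarith
  have hδpos : 0 < δ := lt_of_lt_of_le (Real.rpow_pos_of_pos hXpos _) hδ0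
  have hy1 : 1 ≤ y := le_trans (Real.one_le_rpow (by linarith) hκ.le) hκy
  have hypos : 0 < y := by linarith
  have hsq : X ^ (κ / 2) ≤ √y := sqrt_rpow_le X κ y hXpos hκy
  have hsq1 : 1 ≤ √y := by rw [Real.one_le_sqrt]; exact hy1
  have hsqX : √y ≤ X := by
    have h2 : √y ≤ y := by
      rw [Real.sqrt_le_left (by linarith)]
      nlinarith
    linarith
  have hNX : (⌊√y⌋₊ : ℝ) ≤ X := floor_sqrt_le X y hy1 hyX
  obtain ⟨ψ, hψ1, hψv⟩ := hPrd.2.2 trv e heRe.1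
  have hXle : ∀ a b : ℝ, a ≤ b → X ^ a ≤ X ^ b := fun a b hab =>
    Real.rpow_le_rpow_of_exponent_le (by linarith) hab
  have hX1' : (1 : ℝ) ≤ X ^ m := Real.one_le_rpow (by linarith) hm0.le
  have : NeZero e.r := ⟨e.hr⟩
  have her' : (e.r : ℝ) ≤ X ^ c1 := le_trans her (hXle _ _ (by linarith))
  -- conversions
  have hψe : ∀ n : ℕ, ψ (n : ZMod (trv.r * e.r)) = e.χ (n : ZMod e.r) := by
    intro n
    rw [hψv, trv_ev, one_mul]
    rfl
  have hDSψ : ∀ (v : ℝ) (s : ℂ), DS ψ v s = DS e.χ v s := by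
    intro v s
    unfold DS
    apply Finset.sum_congr rfl
    intro a _
    rw [hψe]
  -- TR1 at 1 - δ and at 1 + δ
  have hDe : ∀ v : ℝ, √y ≤ v → ‖DS e.χ v (1 - (δ : ℂ))‖ ≤ X ^ (-m) := by
    intro v hv
    have h := H1 X v e.r e.χ (1 - (δ : ℂ)) hXX1 her' (le_trans hsq hv) heRe.2
      (by simp; linarith) (by simp; linarith) (by simp; positivity)
    have h0 : DirichletCharacter.LFunction e.χ (1 - (δ : ℂ)) = 0 := hL
    rw [h0, sub_zero] at h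
    exact le_trans h (hXle _ _ (by linarith))
  have hDp : ‖DS e.χ (√y) (1 + (δ : ℂ)) - e.L (1 + δ)‖ ≤ X ^ (-m) := by
    have h := H1 X (√y) e.r e.χ (1 + (δ : ℂ)) hXX1 her' hsq heRe.2
      (by simp; linarith) (by simp; linarith) (by simp; positivity)
    exact le_trans h (hXle _ _ (by linarith))
  -- TR2 at 1 - 2δ
  have hs1 : (1 - 2 * (δ : ℂ)) ≠ 1 := by
    intro h
    have h2 : (δ : ℂ) = 0 := by linear_combination (-1 / 2) * h
    have h3 : δ = 0 := by exact_mod_cast h2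
    linarith
  set w : ℂ := 1 - 2 * (δ : ℂ) with hw
  have hwre : w.re = 1 - 2 * δ := by rw [hw]; simp
  have hwim : w.im = 0 := by rw [hw]; simp
  set Lv : ℂ := DirichletCharacter.LFunction (1 : DirichletCharacter ℂ 1) w with hLv
  have hT2 : ∀ v : ℝ, √y ≤ v →
      ‖(DS trv.χ v w - 1 * ((v : ℂ) ^ (1 - w) / (1 - w))) - Lv‖ ≤ X ^ (-m) := by
    intro v hv
    have h := H2 X v 1 w hXX2 (by simp; exact le_trans hX1' (hXle _ _ (by linarith)))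
      (le_trans hsq hv) hs1 (by rw [hwre]; linarith) (by rw [hwre]; linarith)
      (by rw [hwim]; simp; positivity)
    have h2 : (DS trv.χ v w - 1 * ((v : ℂ) ^ (1 - w) / (1 - w))) - Lv =
      DS (1 : DirichletCharacter ℂ 1) v w - DirichletCharacter.LFunction (1 : DirichletCharacter ℂ 1) w -
        (((1 : ℕ).totient : ℂ) / ((1 : ℕ) : ℂ)) * ((v : ℂ) ^ (1 - w) / (1 - w)) := by
      rw [hLv]
      simp only [Nat.totient_one, Nat.cast_one, div_one]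
      change (DS (1 : DirichletCharacter ℂ 1) v w - _) - _ = _
      ring
    rw [h2]
    exact le_trans h (hXle _ _ (by linarith))
  have hm' : 0 ≤ X ^ (-m) := Real.rpow_nonneg hXpos.le _
  have hlog0 : 0 ≤ Real.log X := Real.log_nonneg (by linarith)
  have hHy := hHyp trv e δ ψ y w heRe.1 hψv hy1
  have hwδ : w + (δ : ℂ) = 1 - δ := by rw [hw]; ring
  have hwδ' : -w - (δ : ℂ) = -(1 - δ) := by rw [hw]; ring
  rw [hwδ, hwδ'] at hHy
  simp only [hDSψ, hψe, trv_ev, one_mul] at hHy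
  -- the first sum
  have hS1 : ‖∑ a ∈ Ioc 0 ⌊√y⌋₊, (a : ℂ) ^ (-w) * DS e.χ (y / a) (1 - (δ : ℂ))‖ ≤
      X ^ (2 * s0) * (1 + Real.log X) * X ^ (-m) := by
    refine norm_sum_bd X w.re (2 * s0) (X ^ (-m)) _ _ _ (by linarith) hNX (by linarith)
      (by rw [hwre]; linarith) ?_ ?_ hm'
    · intro a ha
      rw [mem_Ioc] at ha
      rw [Complex.norm_natCast_cpow_of_pos ha.1, Complex.neg_re]
    · intro a ha
      exact hDe _ (le_div_floor y a hy1 ha)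
  have hDdef : DS e.χ (√y) (1 - (δ : ℂ)) =
      ∑ a ∈ Ioc 0 ⌊√y⌋₊, e.χ (a : ZMod e.r) * (a : ℂ) ^ (-(1 - (δ : ℂ))) := rfl
  have hDdef' : DS e.χ (√y) (1 + (δ : ℂ)) =
      ∑ a ∈ Ioc 0 ⌊√y⌋₊, e.χ (a : ZMod e.r) * (a : ℂ) ^ (-(1 + (δ : ℂ))) := rfl
  have hA3 := alg3 y ⌊√y⌋₊ hypos (fun a => e.χ (a : ZMod e.r)) (1 - (δ : ℂ)) w (1 + (δ : ℂ))
    (by rw [hw]; ring) 1 (DS e.χ (√y) (1 - (δ : ℂ))) hDdef (fun a => DS trv.χ (y / a) w)
    (DS trv.χ (√y) w) (√y)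
  rw [← hDdef'] at hA3
  have hA : ‖∑ a ∈ Ioc 0 ⌊√y⌋₊, e.χ (a : ZMod e.r) * (a : ℂ) ^ (-(1 - (δ : ℂ))) *
      ((DS trv.χ (y / a) w - 1 * (((y / a : ℝ) : ℂ) ^ (1 - w) / (1 - w))) -
      (DS trv.χ (√y) w - 1 * (((√y : ℝ) : ℂ) ^ (1 - w) / (1 - w))))‖ ≤
      X ^ (2 * s0) * (1 + Real.log X) * (2 * X ^ (-m)) := by
    refine norm_sum_bd X (1 - δ) (2 * s0) (2 * X ^ (-m)) _ _ _ (by linarith) hNX (by linarith)
      (by linarith) ?_ ?_ (by linarith)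
    · intro a ha
      rw [mem_Ioc] at ha
      have h := norm_char_cpow e.χ a ha.1 (1 - (δ : ℂ))
      have h2 : (1 - (δ : ℂ)).re = 1 - δ := by simp
      rw [h2] at h
      exact h
    · intro a ha
      have h1 := hT2 (y / a) (le_div_floor y a hy1 ha)
      have h2 := hT2 (√y) le_rfl
      have h3 := norm_sub_le ((DS trv.χ (y / a) w - 1 * (((y / a : ℝ) : ℂ) ^ (1 - w) / (1 - w))) - Lv)
        ((DS trv.χ (√y) w - 1 * (((√y : ℝ) : ℂ) ^ (1 - w) / (1 - w))) - Lv)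
      rw [sub_sub_sub_cancel_right] at h3
      linarith
  have h1w : (1 : ℂ) - w = ((2 * δ : ℝ) : ℂ) := by rw [hw]; push_cast; ring
  have hpw : ∀ v : ℝ, 1 ≤ v → v ≤ X → ‖1 * ((v : ℂ) ^ (1 - w) / (1 - w))‖ ≤ X ^ (3 * s0) := by
    intro v hv hvX
    rw [one_mul, norm_div]
    have h1 : ‖(v : ℂ) ^ (1 - w)‖ ≤ X ^ (2 * s0) := by
      apply norm_cpow_le X v (2 * s0) _ hv hvX (by linarith)
      rw [h1w, Complex.ofReal_re]
      linarith
    have h2 : X ^ (-s0) ≤ ‖(1 : ℂ) - w‖ := by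
      rw [h1w, Complex.norm_real, Real.norm_eq_abs, abs_of_pos (by linarith)]
      linarith
    have h3 : 0 < X ^ (-s0) := Real.rpow_pos_of_pos hXpos _
    have h4 : ‖(v : ℂ) ^ (1 - w)‖ / ‖(1 : ℂ) - w‖ ≤ X ^ (2 * s0) / X ^ (-s0) :=
      div_le_div₀ (Real.rpow_nonneg hXpos.le _) h1 h3 h2
    have h5 : X ^ (2 * s0) / X ^ (-s0) = X ^ (3 * s0) := by
      rw [← Real.rpow_sub hXpos]
      congr 1
      ring
    rw [h5] at h4
    exact h4
  have hC : ‖1 * (((√y : ℝ) : ℂ) ^ (1 - w) / (1 - w)) * DS e.χ (√y) (1 - (δ : ℂ))‖ ≤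
      X ^ (3 * s0) * X ^ (-m) := by
    rw [norm_mul]
    exact mul_le_mul (hpw (√y) hsq1 hsqX) (hDe _ le_rfl) (norm_nonneg _)
      (Real.rpow_nonneg hXpos.le _)
  have hB : ‖1 * ((y : ℂ) ^ (1 - w) / (1 - w)) * (DS e.χ (√y) (1 + (δ : ℂ)) - e.L (1 + δ))‖ ≤
      X ^ (3 * s0) * X ^ (-m) := by
    rw [norm_mul]
    exact mul_le_mul (hpw y hy1 hyX) hDp (norm_nonneg _) (Real.rpow_nonneg hXpos.le _)
  have hmain : ‖TF e δ trv y w - (y : ℂ) ^ (1 - w) / (1 - w) * e.L (1 + δ)‖ ≤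
      X ^ (2 * s0) * (1 + Real.log X) * X ^ (-m) +
      (X ^ (2 * s0) * (1 + Real.log X) * (2 * X ^ (-m)) + X ^ (3 * s0) * X ^ (-m) +
        X ^ (3 * s0) * X ^ (-m)) := by
    have hsplit : TF e δ trv y w - (y : ℂ) ^ (1 - w) / (1 - w) * e.L (1 + δ) =
        ∑ a ∈ Ioc 0 ⌊√y⌋₊, (a : ℂ) ^ (-w) * DS e.χ (y / a) (1 - (δ : ℂ)) +
        ((∑ a ∈ Ioc 0 ⌊√y⌋₊, e.χ (a : ZMod e.r) * (a : ℂ) ^ (-(1 - (δ : ℂ))) *
      ((DS trv.χ (y / a) w - 1 * (((y / a : ℝ) : ℂ) ^ (1 - w) / (1 - w))) -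
      (DS trv.χ (√y) w - 1 * (((√y : ℝ) : ℂ) ^ (1 - w) / (1 - w)))) +
        1 * ((y : ℂ) ^ (1 - w) / (1 - w)) * (DS e.χ (√y) (1 + (δ : ℂ)) - e.L (1 + δ))) -
        1 * (((√y : ℝ) : ℂ) ^ (1 - w) / (1 - w)) * DS e.χ (√y) (1 - (δ : ℂ))) := by
      rw [hHy]
      linear_combination hA3
    rw [hsplit]
    refine le_trans (norm_add_le _ _) (add_le_add hS1 ?_)
    refine le_trans (norm_sub_le _ _) (add_le_add ?_ hC)
    exact le_trans (norm_add_le _ _) (add_le_add hA hB)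
  -- the real part
  have hre : ∑ n ∈ Ioc 0 ⌊y⌋₊, ff e δ n * (n : ℝ) ^ (-(1 - 2 * δ)) -
      y ^ (2 * δ) / (2 * δ) * (e.L (1 + δ)).re =
      (TF e δ trv y w - (y : ℂ) ^ (1 - w) / (1 - w) * e.L (1 + δ)).re := by
    have h1 : TF e δ trv y w = ((∑ n ∈ Ioc 0 ⌊y⌋₊, ff e δ n * (n : ℝ) ^ (-(1 - 2 * δ)) : ℝ) : ℂ) := by
      unfold TF
      push_cast
      apply Finset.sum_congr rfl
      intro n _
      rw [trv_ev, mul_one, Complex.ofReal_cpow (Nat.cast_nonneg n)]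
      congr 2
      rw [hw]
      push_cast
      ring
    have h2 : (y : ℂ) ^ (1 - w) / (1 - w) = ((y ^ (2 * δ) / (2 * δ) : ℝ) : ℂ) := by
      rw [h1w, Complex.ofReal_div, Complex.ofReal_cpow hypos.le]
    rw [h1, h2, Complex.sub_re, Complex.ofReal_re, Complex.re_ofReal_mul]
  rw [hre]
  refine le_trans (Complex.abs_re_le_norm _) (le_trans hmain ?_)
  -- final estimate
  set P : ℝ := X ^ s0 with hP
  have hP0 : 0 < P := Real.rpow_pos_of_pos hXpos _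
  have hPm : X ^ (-m) = (P ^ 8)⁻¹ := by
    rw [hP, ← Real.rpow_natCast, ← Real.rpow_mul hXpos.le, ← Real.rpow_neg hXpos.le]
    congr 1
    push_cast
    rw [hs0]
    ring
  have hP2 : X ^ (2 * s0) = P ^ 2 := by
    rw [hP, ← Real.rpow_natCast, ← Real.rpow_mul hXpos.le]
    congr 1
    push_cast
    ring
  have hP3 : X ^ (3 * s0) = P ^ 3 := by
    rw [hP, ← Real.rpow_natCast, ← Real.rpow_mul hXpos.le]
    congr 1
    push_cast
    ring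
  have hPn : X ^ (-s0) = P⁻¹ := by rw [hP, Real.rpow_neg hXpos.le]
  rw [hPm, hP2, hP3, hPn]
  have h8' : 0 < P ^ 8 := by positivity
  have h1 : P ^ 2 * (1 + Real.log X) * (P ^ 8)⁻¹ + (P ^ 2 * (1 + Real.log X) * (2 * (P ^ 8)⁻¹) +
      P ^ 3 * (P ^ 8)⁻¹ + P ^ 3 * (P ^ 8)⁻¹) ≤ 5 * P ^ 3 * (P ^ 8)⁻¹ := by
    have h2 : P ^ 2 * (1 + Real.log X) ≤ P ^ 3 := by
      have : P ^ 3 = P ^ 2 * P := by ring
      rw [this]
      exact mul_le_mul_of_nonneg_left hlog (by positivity)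
    have h3 : 0 < (P ^ 8)⁻¹ := inv_pos.mpr h8'
    nlinarith
  refine le_trans h1 ?_
  rw [← div_eq_mul_inv, div_le_iff₀ h8', inv_mul_eq_div, le_div_iff₀ hP0]
  have h4 : 5 * P ^ 3 * P = 5 * P ^ 4 := by ring
  rw [h4]
  have h5 : P ^ 8 = P ^ 4 * P ^ 4 := by ring
  rw [h5]
  apply mul_le_mul_of_nonneg_right _ (by positivity)
  have h6 : (5 : ℝ) ≤ P := by linarith
  calc (5 : ℝ) ≤ P := h6
    _ = P ^ 1 := (pow_one P).symm
    _ ≤ P ^ 4 := pow_le_pow_right₀ (by linarith) (by norm_num)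

end Pool.Agent.Helper83.MV
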