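import Pool.Agent.Helper23.MV.StH

/-!
# Project MV: common lemmas for TF1, TF3
-/

set_option autoImplicit false

namespace Pool.Agent.Helper83.MV

open Finset
open Pool.Agent.Helper23.MV

theorem sum_rpow_bd (X s c : ℝ) (N : ℕ) (hX : 1 ≤ X) (hN : (N : ℝ) ≤ X) (hc : 0 ≤ c)
    (hs : 1 - c ≤ s) :
    ∑ a ∈ Ioc 0 N, (a : ℝ) ^ (-s) ≤ X ^ c * (1 + Real.log X) := by
  have h1 : ∀ a ∈ Ioc 0 N, (a : ℝ) ^ (-s) ≤ X ^ c * ((a : ℝ))⁻¹ := by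
    intro a ha
    rw [mem_Ioc] at ha
    have ha1 : (1 : ℝ) ≤ a := by exact_mod_cast ha.1
    have ha0 : (0 : ℝ) < a := by linarith
    have haX : (a : ℝ) ≤ X := le_trans (by exact_mod_cast ha.2) hN
    calc (a : ℝ) ^ (-s) ≤ (a : ℝ) ^ (c + (-1)) := Real.rpow_le_rpow_of_exponent_le ha1 (by linarith)
      _ = (a : ℝ) ^ c * ((a : ℝ))⁻¹ := by rw [Real.rpow_add ha0, Real.rpow_neg_one]
      _ ≤ X ^ c * ((a : ℝ))⁻¹ := by
        apply mul_le_mul_of_nonneg_right _ (inv_nonneg.mpr ha0.le)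
        exact Real.rpow_le_rpow ha0.le haX hc
  have h2 : ∑ a ∈ Ioc 0 N, ((a : ℝ))⁻¹ ≤ 1 + Real.log X := by
    have h3 : ∑ a ∈ Ioc 0 N, ((a : ℝ))⁻¹ = (harmonic N : ℝ) := by
      rw [harmonic_eq_sum_Icc]
      push_cast
      apply Finset.sum_congr _ (fun _ _ => rfl)
      ext a
      simp only [mem_Ioc, mem_Icc]
      omega
    rw [h3]
    rcases Nat.eq_zero_or_pos N with h0 | h0
    · subst h0
      have := Real.log_nonneg hX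
      simp
      linarith
    · have h4 := harmonic_le_one_add_log N
      have h5 : Real.log N ≤ Real.log X := Real.log_le_log (by exact_mod_cast h0) hN
      linarith
  calc ∑ a ∈ Ioc 0 N, (a : ℝ) ^ (-s) ≤ ∑ a ∈ Ioc 0 N, X ^ c * ((a : ℝ))⁻¹ := Finset.sum_le_sum h1
    _ = X ^ c * ∑ a ∈ Ioc 0 N, ((a : ℝ))⁻¹ := by rw [Finset.mul_sum]
    _ ≤ X ^ c * (1 + Real.log X) :=
      mul_le_mul_of_nonneg_left h2 (Real.rpow_nonneg (by linarith) _)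

/-- a sum of terms `x a * z a` with `‖x a‖ ≤ a^{-s}`, `‖z a‖ ≤ E` -/
theorem norm_sum_bd (X s c E : ℝ) (N : ℕ) (x z : ℕ → ℂ) (hX : 1 ≤ X) (hN : (N : ℝ) ≤ X)
    (hc : 0 ≤ c) (hs : 1 - c ≤ s) (hx : ∀ a ∈ Ioc 0 N, ‖x a‖ ≤ (a : ℝ) ^ (-s))
    (hz : ∀ a ∈ Ioc 0 N, ‖z a‖ ≤ E) (hE : 0 ≤ E) :
    ‖∑ a ∈ Ioc 0 N, x a * z a‖ ≤ X ^ c * (1 + Real.log X) * E := by
  calc ‖∑ a ∈ Ioc 0 N, x a * z a‖ ≤ ∑ a ∈ Ioc 0 N, ‖x a * z a‖ := norm_sum_le _ _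
    _ ≤ ∑ a ∈ Ioc 0 N, (a : ℝ) ^ (-s) * E := by
      apply Finset.sum_le_sum
      intro a ha
      rw [norm_mul]
      exact mul_le_mul (hx a ha) (hz a ha) (norm_nonneg _) (Real.rpow_nonneg (Nat.cast_nonneg _) _)
    _ = (∑ a ∈ Ioc 0 N, (a : ℝ) ^ (-s)) * E := by rw [Finset.sum_mul]
    _ ≤ _ := mul_le_mul_of_nonneg_right (sum_rpow_bd X s c N hX hN hc hs) hE

theorem norm_char_cpow {q : ℕ} (ψ : DirichletCharacter ℂ q) (a : ℕ) (ha : 0 < a) (w : ℂ) :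
    ‖ψ (a : ZMod q) * (a : ℂ) ^ (-w)‖ ≤ (a : ℝ) ^ (-w.re) := by
  rw [norm_mul, Complex.norm_natCast_cpow_of_pos ha, Complex.neg_re]
  have := DirichletCharacter.norm_le_one ψ (a : ZMod q)
  have h2 : (0 : ℝ) ≤ (a : ℝ) ^ (-w.re) := Real.rpow_nonneg (Nat.cast_nonneg _) _
  nlinarith

/-- large `X` -/
theorem exists_X0 (c₀ : ℝ) (hc : 0 < c₀) : ∃ X0 : ℝ, 2 ≤ X0 ∧ ∀ X : ℝ, X0 ≤ X →
    8 ≤ X ^ c₀ ∧ 1 + Real.log X ≤ X ^ c₀ := by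
  have h1 : Filter.Tendsto (fun X : ℝ => X ^ c₀) Filter.atTop Filter.atTop :=
    tendsto_rpow_atTop hc
  have h2 : ∀ᶠ X : ℝ in Filter.atTop, 8 ≤ X ^ c₀ := h1.eventually_ge_atTop 8
  have h3 : ∀ᶠ X : ℝ in Filter.atTop, Real.log X ≤ X ^ c₀ / 2 := by
    have := (isLittleO_log_rpow_atTop hc).bound (show (0 : ℝ) < 1 / 2 by norm_num)
    filter_upwards [this, Filter.eventually_ge_atTop (1 : ℝ)] with X hX h1X
    rw [Real.norm_eq_abs, Real.norm_eq_abs, abs_of_nonneg (Real.log_nonneg h1X),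
      abs_of_nonneg (Real.rpow_nonneg (by linarith) _)] at hX
    linarith
  obtain ⟨X1, hX1⟩ := Filter.eventually_atTop.mp (h2.and h3)
  refine ⟨max 2 X1, le_max_left _ _, fun X hX => ?_⟩
  obtain ⟨h4, h5⟩ := hX1 X (le_trans (le_max_right _ _) hX)
  exact ⟨h4, by linarith⟩

theorem sqrt_rpow_le (X κ y : ℝ) (hX : 0 < X) (hy : X ^ κ ≤ y) : X ^ (κ / 2) ≤ √y := by
  apply Real.le_sqrt_of_sq_le
  rw [← Real.rpow_natCast, ← Real.rpow_mul hX.le]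
  have : κ / 2 * ((2 : ℕ) : ℝ) = κ := by push_cast; ring
  rw [this]
  exact hy

theorem le_div_floor (y : ℝ) (a : ℕ) (hy : 1 ≤ y) (ha : a ∈ Ioc 0 ⌊√y⌋₊) : √y ≤ y / a := by
  rw [mem_Ioc] at ha
  have h0 : (0 : ℝ) < a := by exact_mod_cast ha.1
  have h1 : (a : ℝ) ≤ √y := by
    have := Nat.floor_le (Real.sqrt_nonneg y)
    have h2 : (a : ℝ) ≤ (⌊√y⌋₊ : ℝ) := by exact_mod_cast ha.2
    linarith
  rw [le_div_iff₀ h0]
  calc √y * a ≤ √y * √y := mul_le_mul_of_nonneg_left h1 (Real.sqrt_nonneg _)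
    _ = y := Real.mul_self_sqrt (by linarith)

theorem floor_sqrt_le (X y : ℝ) (hy : 1 ≤ y) (hyX : y ≤ X) : (⌊√y⌋₊ : ℝ) ≤ X := by
  have h1 := Nat.floor_le (Real.sqrt_nonneg y)
  have h2 : √y ≤ y := by
    rw [Real.sqrt_le_left (by linarith)]
    nlinarith
  linarith

/-- `(y/a)^w = y^w * a^{-w}` -/
theorem div_cpow (y : ℝ) (a : ℕ) (w : ℂ) (hy : 0 < y) (ha : 0 < a) :
    ((y / a : ℝ) : ℂ) ^ w = (y : ℂ) ^ w * (a : ℂ) ^ (-w) := by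
  have ha' : (0 : ℝ) < a := by exact_mod_cast ha
  rw [div_eq_mul_inv, Complex.ofReal_mul, Complex.mul_cpow_ofReal_nonneg hy.le (inv_nonneg.mpr ha'.le)]
  congr 1
  rw [Complex.ofReal_inv, Complex.ofReal_natCast, Complex.inv_cpow, Complex.cpow_neg]
  rw [Complex.natCast_arg]
  exact Real.pi_pos.ne

theorem norm_cpow_le (X y c : ℝ) (w : ℂ) (hy : 1 ≤ y) (hyX : y ≤ X) (hc : 0 ≤ c)
    (hw : w.re ≤ c) : ‖(y : ℂ) ^ w‖ ≤ X ^ c := by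
  rw [Complex.norm_cpow_eq_rpow_re_of_pos (by linarith)]
  calc y ^ w.re ≤ y ^ c := Real.rpow_le_rpow_of_exponent_le hy hw
    _ ≤ X ^ c := Real.rpow_le_rpow (by linarith) hyX hc

theorem pc_bound {q : ℕ} [NeZero q] (ψ : DirichletCharacter ℂ q) : 0 ≤ pc ψ ∧ pc ψ ≤ 1 := by
  unfold pc
  split_ifs
  · have hq : (0 : ℝ) < q := by exact_mod_cast NeZero.pos q
    have h1 : (q.totient : ℝ) ≤ q := by exact_mod_cast Nat.totient_le q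
    exact ⟨by positivity, by rw [div_le_one hq]; exact h1⟩
  · norm_num

end Pool.Agent.Helper83.MV
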