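import Pool.Agent.Helper23.MV.StC
import Pool.Agent.Helper15.AB.M_DB

/-!
# Project MV: module FNC, preliminary lemmas
-/

set_option autoImplicit false

namespace Pool.Agent.Helper83.MV.FNC

open Finset MeasureTheory
open Pool.Agent.Helper23.MV
open Pool.Agent.Helper48.BK (ex th)
open Pool.Agent.Helper23.GK (SS)

/-! ### the number of primitive characters -/

open Classical in
/-- transport of the character to the modulus `r` -/
noncomputable def tr (r : ℕ) (c : PCh) : DirichletCharacter ℂ r :=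
  if h : c.r = r then h ▸ c.χ else 1

theorem tr_inj (r : ℕ) (c c' : PCh) (h : c.r = r) (h' : c'.r = r) (hh : tr r c = tr r c') : c = c' := by
  obtain ⟨a, ha, χ, hp⟩ := c
  obtain ⟨a', ha', χ', hp'⟩ := c'
  simp only at h h'
  subst h
  subst h'
  unfold tr at hh
  simp only [dif_pos] at hh
  subst hh
  rfl

theorem card_PS (hFin : StFin) (P : ℝ) (hP : 1 ≤ P) : ((PS P).card : ℝ) ≤ P ^ 2 := by
  classical
  have hmem : ∀ c ∈ PS P, c.r ∈ Icc 1 ⌊P⌋₊ := by
    intro c hc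
    rw [mem_Icc]
    exact ⟨Nat.one_le_iff_ne_zero.2 c.hr, Nat.le_floor ((hFin.1 P c).1 hc)⟩
  have h1 := Finset.card_eq_sum_card_fiberwise (f := fun c : PCh => c.r) (s := PS P)
    (t := Icc 1 ⌊P⌋₊) hmem
  have h2 : ∀ r ∈ Icc 1 ⌊P⌋₊, ((PS P).filter (fun c => c.r = r)).card ≤ ⌊P⌋₊ := by
    intro r hr
    rw [mem_Icc] at hr
    have : NeZero r := ⟨by omega⟩
    have h3 : ((PS P).filter (fun c => c.r = r)).card ≤
        (Finset.univ : Finset (DirichletCharacter ℂ r)).card := by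
      apply Finset.card_le_card_of_injOn (tr r) (fun c _ => Finset.mem_univ _)
      intro c hc c' hc' hh
      have e1 := (mem_filter.1 hc).2
      have e2 := (mem_filter.1 hc').2
      exact tr_inj r c c' e1 e2 hh
    have h4 : (Finset.univ : Finset (DirichletCharacter ℂ r)).card = r.totient := by
      rw [Finset.card_univ, ← Nat.card_eq_fintype_card]
      exact DirichletCharacter.card_eq_totient_of_hasEnoughRootsOfUnity ℂ r
    calc _ ≤ r.totient := by rw [← h4]; exact h3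
      _ ≤ r := Nat.totient_le r
      _ ≤ ⌊P⌋₊ := hr.2
  have h3 : (PS P).card ≤ ⌊P⌋₊ * ⌊P⌋₊ := by
    rw [h1]
    calc ∑ r ∈ Icc 1 ⌊P⌋₊, ((PS P).filter (fun c => c.r = r)).card ≤ ∑ r ∈ Icc 1 ⌊P⌋₊, ⌊P⌋₊ :=
          Finset.sum_le_sum h2
      _ = ⌊P⌋₊ * ⌊P⌋₊ := by
          rw [Finset.sum_const, Nat.card_Icc, smul_eq_mul]
          congr 1
  have h4 : (⌊P⌋₊ : ℝ) ≤ P := Nat.floor_le (by linarith)
  calc ((PS P).card : ℝ) ≤ ((⌊P⌋₊ * ⌊P⌋₊ : ℕ) : ℝ) := by exact_mod_cast h3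
    _ = (⌊P⌋₊ : ℝ) * ⌊P⌋₊ := by push_cast; ring
    _ ≤ P * P := mul_le_mul h4 h4 (Nat.cast_nonneg _) (by linarith)
    _ = P ^ 2 := by ring

/-! ### periodicity -/

theorem ex_add_nat (x : ℝ) (n : ℕ) : ex (x + n) = ex x := by
  unfold ex
  have h : (2 * Real.pi * ((x + n : ℝ) : ℂ) * Complex.I) =
      2 * Real.pi * (x : ℂ) * Complex.I + n * (2 * Real.pi * Complex.I) := by
    push_cast
    ring
  rw [h]
  exact Complex.exp_periodic.nat_mul n _

theorem ex_cont : Continuous ex := by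
  unfold ex
  fun_prop

theorem ex_per (n : ℕ) (x : ℝ) : ex (n * (x + 1)) = ex (n * x) := by
  have h : (n : ℝ) * (x + 1) = n * x + n := by ring
  rw [h, ex_add_nat]

theorem ex_per' (n : ℕ) (x : ℝ) : ex (-(n * (x + 1))) = ex (-(n * x)) := by
  have h : -((n : ℝ) * x) = -((n : ℝ) * (x + 1)) + n := by ring
  rw [h, ex_add_nat]

theorem SfH_cont (H : ℕ) : Continuous (SfH H) := by
  unfold SfH
  apply continuous_finsetSum
  intro n _
  exact continuous_const.mul (ex_cont.comp (by fun_prop))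

theorem SgH_cont (N₀ H : ℕ) : Continuous (SgH N₀ H) := by
  unfold SgH
  apply continuous_finsetSum
  intro n _
  exact continuous_const.mul (ex_cont.comp (by fun_prop))

theorem SfH_per (H : ℕ) (x : ℝ) : SfH H (x + 1) = SfH H x := by
  unfold SfH
  exact Finset.sum_congr rfl fun n _ => by rw [ex_per]

theorem SgH_per (N₀ H : ℕ) (x : ℝ) : SgH N₀ H (x + 1) = SgH N₀ H x := by
  unfold SgH
  exact Finset.sum_congr rfl fun n _ => by rw [ex_per]

theorem ZS_nonneg (o : Option (PCh × ℝ)) (c : PCh) (η T Y : ℝ) (hY : 0 ≤ Y) : 0 ≤ ZS o c η T Y := by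
  unfold ZS
  exact Finset.sum_nonneg fun ρ _ => mul_nonneg (Nat.cast_nonneg _) (Real.rpow_nonneg hY _)

/-! ### positivity for one number -/

theorem pos_rep (H N : ℕ) (h : 0 < ∑ n ∈ Ioc (2 * H) (3 * H), th n * th (N - n)) :
    ∃ p : ℕ, p.Prime ∧ (N - p).Prime ∧ p < N ∧ H * 2 < p ∧ p ≤ 3 * H := by
  classical
  obtain ⟨n, hn, hn2⟩ := Finset.exists_ne_zero_of_sum_ne_zero h.ne'
  rw [mem_Ioc] at hn
  have h1 : n.Prime := by
    by_contra hcon
    apply hn2
    unfold th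
    rw [if_neg hcon, zero_mul]
  have h2 : (N - n).Prime := by
    by_contra hcon
    apply hn2
    have : th (N - n) = 0 := by
      unfold th
      rw [if_neg hcon]
    rw [this, mul_zero]
  refine ⟨n, h1, h2, ?_, by omega, hn.2⟩
  have := h2.pos
  omega

/-- the representation number of one `N` in a good block -/
theorem one_N (hMja : StMja) (hRri : StRri) (hMjf : StMjf) (H N₀ N : ℕ) (P : ℝ)
    (o : Option (PCh × ℝ)) (hH : 1 ≤ H) (hP : 1 ≤ P) (h5 : 5 * H < N₀) (hN0 : N₀ < N)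
    (hN1 : N ≤ N₀ + H) (hPH : P < H) (hBP : 2 * (P / H) * P ^ 2 < 1) :
    ((∑ n ∈ Ioc (2 * H) (3 * H), th n * th (N - n) : ℝ) : ℂ) =
      (∫ α in mn P (P / H), SfH H α * SgH N₀ H α * ex (-(N * α))) +
      ∑ c₁ ∈ PS P, ∑ c₂ ∈ PS P, KK c₁ c₂ P N *
        ∫ β in (-(P / H))..(P / H), (Mf o c₁ H β + Ef o c₁ H β) *
          (Mg o c₂ N₀ H β + Eg o c₂ N₀ H β) * ex (-(N * β)) := by
  have hH0 : (0 : ℝ) < H := by exact_mod_cast hH
  have hB : 0 < P / H := by positivity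
  rw [hRri H N₀ N hH (by omega) hN0 hN1]
  have h1 := hMja (fun α => SfH H α * SgH N₀ H α * ex (-(N * α))) P (P / H)
    (((SfH_cont H).mul (SgH_cont N₀ H)).mul (ex_cont.comp (by fun_prop)))
    (fun x => by rw [SfH_per, SgH_per, ex_per']) hP hB hBP
  rw [h1]
  congr 1
  exact hMjf o H N₀ N P (P / H) hH hP hPH h5 hB.le

end Pool.Agent.Helper83.MV.FNC
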