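import Pool.Agent.Helper83.MV.FNC1
import Pool.Agent.Helper29.GK.M_SSA

/-!
# Project MV: module FNC, positivity in good blocks, counting, asymptotics
-/

set_option autoImplicit false

namespace Pool.Agent.Helper83.MV.FNC

open Finset MeasureTheory
open Pool.Agent.Helper23.MV
open Pool.Agent.Helper48.BK (ex th)
open Pool.Agent.Helper23.GK (SS)

/-- positivity in a good block -/
theorem good_N (hMja : StMja) (hRri : StRri) (hMjf : StMjf) (K : ℝ)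
    (hMjb : ∀ (o : Option (PCh × ℝ)) (H N₀ N : ℕ) (P ε : ℝ)
      (a b : PCh → ℝ), OKb o 1 → 1 ≤ H → 4 * H < N₀ → N₀ < N → N ≤ N₀ + H → Even N → 1 ≤ P →
      2 * P ≤ H → 0 ≤ ε → ε ≤ 1 →
      (∀ c ∈ PS P, 0 ≤ a c ∧ 0 ≤ b c ∧ nrm (Ef o c H) (P / H) ≤ √(H : ℝ) * a c ∧
        nrm (Eg o c N₀ H) (P / H) ≤ √(H : ℝ) * b c) →
      ∑ c ∈ PS P, a c ≤ ε → ∑ c ∈ PS P, b c ≤ ε →
      ‖(∑ c₁ ∈ PS P, ∑ c₂ ∈ PS P, KK c₁ c₂ P N *
          ∫ β in (-(P / H))..(P / H), (Mf o c₁ H β + Ef o c₁ H β) *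
            (Mg o c₂ N₀ H β + Eg o c₂ N₀ H β) * ex (-(N * β))) -
        ∑ c₁ ∈ PS P, ∑ c₂ ∈ PS P, KK c₁ c₂ P N *
          ((∑ n ∈ Ioc (2 * H) (3 * H), mwt o c₁ n * mwt o c₂ ((N - n : ℕ) : ℝ) : ℝ) : ℂ)‖ ≤
        K * SS N * H * (ε + 1 / P))
    (hMnt : ∀ (X : ℕ) (o : Option (PCh × ℝ)) (N : ℕ) (P : ℝ), 100 ≤ X →
      OKb o 1 → (∀ (e : PCh) (δ : ℝ), o = some (e, δ) → (e.r : ℝ) ^ 2 ≤ P) → 1 ≤ P → X < N →
      N ≤ 2 * X → Even N →
      (Nat.sqrt X : ℝ) * SS N * (mm o X ^ 2 / 10 - K * (N.divisors.card : ℝ) * P ^ (-(1 / 4) : ℝ)) ≤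
        (∑ c₁ ∈ PS P, ∑ c₂ ∈ PS P, KK c₁ c₂ P N *
          ((∑ n ∈ Ioc (2 * Nat.sqrt X) (3 * Nat.sqrt X), mwt o c₁ n * mwt o c₂ ((N - n : ℕ) : ℝ) : ℝ) :
            ℂ)).re)
    (X j N : ℕ) (P M2 ε : ℝ) (o : Option (PCh × ℝ)) (a b : PCh → ℝ) (hX : 100 ≤ X)
    (hH : 1 ≤ Nat.sqrt X) (hP : 1 ≤ P) (h5 : 5 * Nat.sqrt X < X)
    (hN0 : X + j * Nat.sqrt X < N) (hN1 : N ≤ X + j * Nat.sqrt X + Nat.sqrt X)
    (hN2 : N ≤ 2 * X) (hE : Even N) (hPH : 2 * P ≤ Nat.sqrt X)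
    (hBP : 2 * (P / Nat.sqrt X) * P ^ 2 < 1) (hM2 : mm o X ^ 2 = M2) (hM0 : 0 < M2)
    (hOK : OKb o 1) (her : ∀ (e : PCh) (δ : ℝ), o = some (e, δ) → (e.r : ℝ) ^ 2 ≤ P)
    (hε0 : 0 ≤ ε) (hε1 : ε ≤ 1)
    (hab : ∀ c ∈ PS P, 0 ≤ a c ∧ 0 ≤ b c ∧
      nrm (Ef o c (Nat.sqrt X)) (P / Nat.sqrt X) ≤ √(Nat.sqrt X : ℝ) * a c ∧
      nrm (Eg o c (X + j * Nat.sqrt X) (Nat.sqrt X)) (P / Nat.sqrt X) ≤ √(Nat.sqrt X : ℝ) * b c)
    (ha : ∑ c ∈ PS P, a c ≤ ε) (hb : ∑ c ∈ PS P, b c ≤ ε)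
    (herr : K * (ε + 1 / P) ≤ M2 / 100)
    (hτ : K * (N.divisors.card : ℝ) * P ^ (-(1 / 4) : ℝ) ≤ M2 / 100)
    (hI : ‖∫ α in mn P (P / Nat.sqrt X), SfH (Nat.sqrt X) α *
      SgH (X + j * Nat.sqrt X) (Nat.sqrt X) α * ex (-(N * α))‖ ≤ M2 * Nat.sqrt X / 30) :
    ∃ p : ℕ, p.Prime ∧ (N - p).Prime ∧ p < N ∧ Nat.sqrt X * 2 < p ∧ p ≤ 3 * Nat.sqrt X := by
  set H := Nat.sqrt X with hHdef
  set N₀ := X + j * H with hN₀
  have hH0 : (0 : ℝ) < H := by exact_mod_cast hH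
  have hXN0 : X ≤ N₀ := by rw [hN₀]; omega
  have h1 := one_N hMja hRri hMjf H N₀ N P o hH hP (by omega) hN0 hN1 (by linarith) hBP
  have h2 := hMjb o H N₀ N P ε a b hOK hH (by omega) hN0 hN1 hE hP hPH hε0 hε1 hab ha hb
  have h3 := hMnt X o N P hX hOK her hP (by omega) hN2 hE
  rw [hM2] at h3
  set I := ∫ α in mn P (P / H), SfH H α * SgH N₀ H α * ex (-(N * α)) with hIdef
  set T1 := ∑ c₁ ∈ PS P, ∑ c₂ ∈ PS P, KK c₁ c₂ P N *
          ∫ β in (-(P / H))..(P / H), (Mf o c₁ H β + Ef o c₁ H β) *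
            (Mg o c₂ N₀ H β + Eg o c₂ N₀ H β) * ex (-(N * β)) with hT1
  set T0 := ∑ c₁ ∈ PS P, ∑ c₂ ∈ PS P, KK c₁ c₂ P N *
          ((∑ n ∈ Ioc (2 * H) (3 * H), mwt o c₁ n * mwt o c₂ ((N - n : ℕ) : ℝ) : ℝ) : ℂ) with hT0
  apply pos_rep
  have hSS : 1 ≤ SS N := (Pool.Agent.Helper29.GK.hSSA N (by omega)).1
  have h4 := congrArg Complex.re h1
  rw [Complex.ofReal_re, Complex.add_re] at h4
  rw [h4]
  have h5 : -(M2 * H / 30) ≤ I.re := by
    have := (abs_le.1 (le_trans (Complex.abs_re_le_norm I) hI)).1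
    exact this
  have h6 : T0.re - K * SS N * H * (ε + 1 / P) ≤ T1.re := by
    have := (abs_le.1 (le_trans (Complex.abs_re_le_norm (T1 - T0)) h2)).1
    rw [Complex.sub_re] at this
    linarith
  have h7 : K * SS N * H * (ε + 1 / P) ≤ SS N * H * (M2 / 100) := by
    have h8 : 0 ≤ SS N * H := by positivity
    calc K * SS N * H * (ε + 1 / P) = SS N * H * (K * (ε + 1 / P)) := by ring
      _ ≤ _ := mul_le_mul_of_nonneg_left herr h8
  have h8 : H * SS N * (M2 / 10 - M2 / 100) ≤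
      H * SS N * (M2 / 10 - K * (N.divisors.card : ℝ) * P ^ (-(1 / 4) : ℝ)) := by
    apply mul_le_mul_of_nonneg_left _ (by positivity)
    linarith
  have h9 : (H : ℝ) * M2 ≤ H * SS N * M2 := by
    have : (0 : ℝ) ≤ H * M2 := by positivity
    nlinarith
  have h10 : (0 : ℝ) < H * M2 := by positivity
  nlinarith

/-- counting -/
theorem count (X H : ℕ) (hH : 1 ≤ H) (J Bad Exc : Finset ℕ) (I : ℕ → ℕ → ℝ) (thr V : ℝ)
    (hJ : ∀ j : ℕ, j * H < X → j < X → j ∈ J) (hE : Exc ⊆ Ioc X (2 * X)) (hthr : 0 < thr)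
    (hV : ∀ j ∈ J, ∑ N ∈ Ioc (X + j * H) (X + j * H + H), I j N ^ 2 ≤ V)
    (hgood : ∀ j ∈ J, j ∉ Bad → ∀ N ∈ Ioc (X + j * H) (X + j * H + H), N ∈ Exc → thr < I j N) :
    (Exc.card : ℝ) ≤ H * Bad.card + J.card * (V / thr ^ 2) := by
  classical
  have h1 : Exc ⊆ (Bad.biUnion fun j => Ioc (X + j * H) (X + j * H + H)) ∪
      (J.biUnion fun j => (Ioc (X + j * H) (X + j * H + H)).filter (fun N => thr < I j N)) := by
    intro N hN
    have h2 := hE hN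
    rw [mem_Ioc] at h2
    set j := (N - X - 1) / H with hj
    have h3 : j * H ≤ N - X - 1 := Nat.div_mul_le_self _ _
    have h4 : N - X - 1 < j * H + H := by
      have := Nat.lt_div_mul_add (a := N - X - 1) (b := H) hH
      rw [← hj] at this
      exact this
    have h5 : N ∈ Ioc (X + j * H) (X + j * H + H) := by
      rw [mem_Ioc]
      omega
    have h6 : j ≤ N - X - 1 := Nat.div_le_self _ _
    have hjJ : j ∈ J := hJ j (by omega) (by omega)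
    rw [Finset.mem_union, Finset.mem_biUnion, Finset.mem_biUnion]
    by_cases hb : j ∈ Bad
    · exact Or.inl ⟨j, hb, h5⟩
    · exact Or.inr ⟨j, hjJ, mem_filter.2 ⟨h5, hgood j hjJ hb N h5 hN⟩⟩
  have h2 : (Exc.card : ℝ) ≤
      ((Bad.biUnion fun j => Ioc (X + j * H) (X + j * H + H)).card : ℝ) +
      ((J.biUnion fun j => (Ioc (X + j * H) (X + j * H + H)).filter
        (fun N => thr < I j N)).card : ℝ) := by
    have := (Finset.card_le_card h1).trans (Finset.card_union_le _ _)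
    exact_mod_cast this
  have h3 : ((Bad.biUnion fun j => Ioc (X + j * H) (X + j * H + H)).card : ℝ) ≤ H * Bad.card := by
    have h4 : (Bad.biUnion fun j => Ioc (X + j * H) (X + j * H + H)).card ≤ ∑ j ∈ Bad, H := by
      refine Finset.card_biUnion_le.trans (Finset.sum_le_sum fun j _ => ?_)
      rw [Nat.card_Ioc]
      omega
    rw [Finset.sum_const, smul_eq_mul] at h4
    calc _ ≤ ((Bad.card * H : ℕ) : ℝ) := by exact_mod_cast h4
      _ = _ := by push_cast; ring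
  have h4 : ((J.biUnion fun j => (Ioc (X + j * H) (X + j * H + H)).filter
        (fun N => thr < I j N)).card : ℝ) ≤ J.card * (V / thr ^ 2) := by
    have h5 : (J.biUnion fun j => (Ioc (X + j * H) (X + j * H + H)).filter
        (fun N => thr < I j N)).card ≤ ∑ j ∈ J, ((Ioc (X + j * H) (X + j * H + H)).filter
        (fun N => thr < I j N)).card := Finset.card_biUnion_le
    have h6 : ∀ j ∈ J, (((Ioc (X + j * H) (X + j * H + H)).filter
        (fun N => thr < I j N)).card : ℝ) ≤ V / thr ^ 2 := by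
      intro j hj
      rw [le_div_iff₀ (by positivity)]
      calc (((Ioc (X + j * H) (X + j * H + H)).filter (fun N => thr < I j N)).card : ℝ) * thr ^ 2
          = ∑ N ∈ (Ioc (X + j * H) (X + j * H + H)).filter (fun N => thr < I j N), thr ^ 2 := by
            rw [Finset.sum_const, nsmul_eq_mul]
        _ ≤ ∑ N ∈ (Ioc (X + j * H) (X + j * H + H)).filter (fun N => thr < I j N), I j N ^ 2 := by
            apply Finset.sum_le_sum
            intro N hN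
            exact pow_le_pow_left₀ hthr.le (mem_filter.1 hN).2.le 2
        _ ≤ ∑ N ∈ Ioc (X + j * H) (X + j * H + H), I j N ^ 2 :=
            Finset.sum_le_sum_of_subset_of_nonneg (Finset.filter_subset _ _)
              (fun _ _ _ => sq_nonneg _)
        _ ≤ V := hV j hj
    calc _ ≤ ((∑ j ∈ J, ((Ioc (X + j * H) (X + j * H + H)).filter
        (fun N => thr < I j N)).card : ℕ) : ℝ) := by exact_mod_cast h5
      _ = ∑ j ∈ J, (((Ioc (X + j * H) (X + j * H + H)).filter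
        (fun N => thr < I j N)).card : ℝ) := by push_cast; rfl
      _ ≤ ∑ j ∈ J, V / thr ^ 2 := Finset.sum_le_sum h6
      _ = _ := by rw [Finset.sum_const, nsmul_eq_mul]
  linarith

/-- the number of blocks -/
theorem card_J (X : ℕ) (hX : 1 ≤ X) :
    ((range X).filter (fun j => j * Nat.sqrt X < X)).card ≤ 4 * Nat.sqrt X := by
  have hH : 1 ≤ Nat.sqrt X := Nat.sqrt_pos.2 hX
  have h1 : (range X).filter (fun j => j * Nat.sqrt X < X) ⊆ range (Nat.sqrt X + 3) := by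
    intro j hj
    rw [mem_filter, mem_range] at hj
    rw [mem_range]
    by_contra hcon
    push Not at hcon
    have h2 : (Nat.sqrt X + 3) * Nat.sqrt X ≤ j * Nat.sqrt X := Nat.mul_le_mul_right _ hcon
    have h3 : X ≤ Nat.sqrt X * Nat.sqrt X + Nat.sqrt X + Nat.sqrt X := Nat.sqrt_le_add X
    have h4 : (Nat.sqrt X + 3) * Nat.sqrt X = Nat.sqrt X * Nat.sqrt X + 3 * Nat.sqrt X := by ring
    omega
  have h2 := Finset.card_le_card h1
  rw [Finset.card_range] at h2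
  omega

/-- asymptotics; `B = X^{δ₀/100}` -/
theorem asym (K Cτ ε δ₀ η : ℝ) (hK : 1 ≤ K) (hCτ : 1 ≤ Cτ) (hε : 0 < ε) (hδ : 0 < δ₀)
    (hδη : δ₀ ≤ η / 100000) (hη : η ≤ 1 / 100) :
    ∃ X1 : ℝ, 100 ≤ X1 ∧ ∀ X : ℕ, X1 ≤ X → ∀ P M2 : ℝ, (X : ℝ) ^ (δ₀ / 2) ≤ P →
      P ≤ (X : ℝ) ^ δ₀ → P ^ (-(1 / 100) : ℝ) ≤ M2 → M2 ≤ 1 →
      1 ≤ P ∧ 0 < M2 ∧ P ^ 2 * (X : ℝ) ^ (-(η / 4000)) ≤ ε * M2 ∧ K / P ≤ M2 / 200 ∧
      (∀ N : ℕ, 1 ≤ N → N ≤ 2 * X → K * (Cτ * (N : ℝ) ^ (δ₀ / 100)) * P ^ (-(1 / 4) : ℝ) ≤ M2 / 100) ∧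
      √(X : ℝ) * (P ^ 2 * (X : ℝ) ^ (1 / 2 - η / 250)) ≤ (X : ℝ) ^ (1 - δ₀ / 8) / 2 ∧
      4 * √(X : ℝ) * (K * (X : ℝ) ^ (3 / 2 : ℝ) / P * Real.log X ^ 14 /
        (M2 * Nat.sqrt X / 30) ^ 2) ≤ (X : ℝ) ^ (1 - δ₀ / 8) / 2 ∧
      5 * Nat.sqrt X < X ∧ 2 * P ≤ Nat.sqrt X ∧ 2 * (P / Nat.sqrt X) * P ^ 2 < 1 ∧
      P ≤ (X : ℝ) ^ (1 / 100 : ℝ) ∧ P ≤ (X : ℝ) ^ (η / 100000) := by
  set Big : ℝ := max (1 / ε) (28800 * K * Cτ) with hBig
  have hBig1 : 28800 ≤ Big := by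
    refine le_trans ?_ (le_max_right _ _)
    have : 1 ≤ K * Cτ := by nlinarith
    nlinarith
  have hl1 : ∀ᶠ X : ℝ in Filter.atTop, Big ≤ X ^ (δ₀ / 100) :=
    (tendsto_rpow_atTop (by positivity)).eventually_ge_atTop Big
  have hl2 : ∀ᶠ X : ℝ in Filter.atTop, Real.log X ≤ X ^ (δ₀ / 200) := by
    have := (isLittleO_log_rpow_atTop (show 0 < δ₀ / 200 by positivity)).bound
      (show (0 : ℝ) < 1 by norm_num)
    filter_upwards [this, Filter.eventually_ge_atTop (1 : ℝ)] with X hX h1X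
    rw [Real.norm_eq_abs, Real.norm_eq_abs, abs_of_nonneg (Real.log_nonneg h1X),
      abs_of_nonneg (Real.rpow_nonneg (by linarith) _)] at hX
    linarith
  obtain ⟨X1, hX1⟩ := Filter.eventually_atTop.mp (hl1.and hl2)
  refine ⟨max 1000 X1, le_trans (by norm_num) (le_max_left _ _), fun X hX P M2 hP1 hP2 hM1 hM2 => ?_⟩
  obtain ⟨hB1, hlog⟩ := hX1 X (le_trans (le_max_right _ _) hX)
  have hX1000 : (1000 : ℝ) ≤ X := le_trans (le_max_left _ _) hX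
  have hX0 : (0 : ℝ) < X := by linarith
  have hX1' : (1 : ℝ) ≤ X := by linarith
  set B : ℝ := (X : ℝ) ^ (δ₀ / 100) with hB
  have hB28 : 28800 ≤ B := le_trans hBig1 hB1
  have hBε : 1 / ε ≤ B := le_trans (le_max_left _ _) hB1
  have hBK : 28800 * K * Cτ ≤ B := le_trans (le_max_right _ _) hB1
  have hB0 : 0 < B := by linarith
  have hBone : 1 ≤ B := by linarith
  have hpow : ∀ n : ℕ, (X : ℝ) ^ (δ₀ / 100 * n) = B ^ n := by
    intro n
    rw [Real.rpow_mul hX0.le, Real.rpow_natCast]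
  have e50 : (X : ℝ) ^ (δ₀ / 2) = B ^ 50 := by
    rw [← hpow 50]
    congr 1
    push_cast
    ring
  have e100 : (X : ℝ) ^ δ₀ = B ^ 100 := by
    rw [← hpow 100]
    congr 1
    push_cast
    ring
  rw [e50] at hP1
  rw [e100] at hP2
  have hPone : 1 ≤ P := le_trans (one_le_pow₀ hBone) hP1
  have hP0 : 0 < P := by linarith
  have hXle : ∀ a b : ℝ, a ≤ b → (X : ℝ) ^ a ≤ (X : ℝ) ^ b := fun a b hab =>
    Real.rpow_le_rpow_of_exponent_le hX1' hab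
  -- M2 ≥ 1/B
  have hMB : B⁻¹ ≤ M2 := by
    refine le_trans ?_ hM1
    have h1 : (B ^ 100) ^ (-(1 / 100) : ℝ) ≤ P ^ (-(1 / 100) : ℝ) :=
      Real.rpow_le_rpow_of_nonpos hP0 hP2 (by norm_num)
    refine le_trans (le_of_eq ?_) h1
    rw [← Real.rpow_natCast, ← Real.rpow_mul hB0.le]
    norm_num
    rw [Real.rpow_neg_one]
  have hM0 : 0 < M2 := lt_of_lt_of_le (inv_pos.2 hB0) hMB
  have hBinv : B * B⁻¹ = 1 := mul_inv_cancel₀ hB0.ne'
  have hneg : ∀ (n : ℕ) (x : ℝ), δ₀ / 100 * n ≤ x → (X : ℝ) ^ (-x) ≤ (B ^ n)⁻¹ := by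
    intro n x hx
    rw [← hpow n, ← Real.rpow_neg hX0.le]
    exact hXle _ _ (by linarith)
  have hkey : (X : ℝ) * (B ^ 13)⁻¹ ≤ (X : ℝ) ^ (1 - δ₀ / 8) := by
    have h1 : (X : ℝ) ^ (1 - δ₀ / 8) = X * (X : ℝ) ^ (-(δ₀ / 8)) := by
      rw [sub_eq_add_neg, Real.rpow_add hX0, Real.rpow_one]
    rw [h1]
    apply mul_le_mul_of_nonneg_left _ hX0.le
    rw [← hpow 13, ← Real.rpow_neg hX0.le]
    apply hXle
    push_cast
    linarith
  have hKpos : 0 < K := by linarith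
  have hKB : 28800 * K ≤ B := by
    refine le_trans ?_ hBK
    nlinarith
  have hsq0 : 0 < √(X : ℝ) := Real.sqrt_pos.2 hX0
  have hsq : √(X : ℝ) * √(X : ℝ) = X := Real.mul_self_sqrt hX0.le
  have hsq30 : 30 ≤ √(X : ℝ) := by
    apply Real.le_sqrt_of_sq_le
    have h900 : (30 : ℝ) ^ 2 = 900 := by norm_num
    rw [h900]
    linarith
  have hH1 : (Nat.sqrt X : ℝ) ≤ √(X : ℝ) := Real.nat_sqrt_le_real_sqrt
  have hH2 : √(X : ℝ) / 2 ≤ Nat.sqrt X := by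
    have h1 : √(X : ℝ) < Nat.sqrt X + 1 := by
      have h2 : (X : ℝ) < ((Nat.sqrt X : ℝ) + 1) ^ 2 := by
        have := Nat.lt_succ_sqrt X
        have h3 : X < (Nat.sqrt X + 1) * (Nat.sqrt X + 1) := this
        have h4 : (X : ℝ) < ((Nat.sqrt X : ℝ) + 1) * ((Nat.sqrt X : ℝ) + 1) := by exact_mod_cast h3
        nlinarith
      rw [Real.sqrt_lt' (by positivity)]
      exact h2
    linarith
  have hH0 : (0 : ℝ) < Nat.sqrt X := by linarith
  -- the size of P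
  have hP3 : P ^ 3 ≤ (X : ℝ) ^ (1 / 4 : ℝ) := by
    calc P ^ 3 ≤ (B ^ 100) ^ 3 := pow_le_pow_left₀ hP0.le hP2 3
      _ = B ^ 300 := by ring
      _ = (X : ℝ) ^ (δ₀ / 100 * (300 : ℕ)) := (hpow 300).symm
      _ ≤ _ := by
          apply hXle
          push_cast
          linarith
  have hX4 : (X : ℝ) ^ (1 / 4 : ℝ) * (X : ℝ) ^ (1 / 4 : ℝ) = √(X : ℝ) := by
    rw [← Real.rpow_add hX0, Real.sqrt_eq_rpow]
    norm_num
  have hX4' : 5 ≤ (X : ℝ) ^ (1 / 4 : ℝ) := by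
    by_contra hcon
    push Not at hcon
    have h1 : 0 ≤ (X : ℝ) ^ (1 / 4 : ℝ) := by positivity
    nlinarith
  have hPP3 : P ≤ P ^ 3 := by
    have h1 : P * 1 ≤ P * P ^ 2 := mul_le_mul_of_nonneg_left (one_le_pow₀ hPone) hP0.le
    calc P = P * 1 := (mul_one P).symm
      _ ≤ P * P ^ 2 := h1
      _ = P ^ 3 := by ring
  have hfour : 4 * (X : ℝ) ^ (1 / 4 : ℝ) < √(X : ℝ) := by nlinarith
  refine ⟨hPone, hM0, ?_, ?_, ?_, ?_, ?_, ?_, ?_, ?_, ?_, ?_⟩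
  · -- a1
    have h1 : (X : ℝ) ^ (-(η / 4000)) ≤ (B ^ 202)⁻¹ := by
      apply hneg 202
      push_cast
      linarith
    have h2 : P ^ 2 ≤ B ^ 200 := by
      calc P ^ 2 ≤ (B ^ 100) ^ 2 := pow_le_pow_left₀ hP0.le hP2 2
        _ = B ^ 200 := by ring
    calc P ^ 2 * (X : ℝ) ^ (-(η / 4000)) ≤ B ^ 200 * (B ^ 202)⁻¹ :=
          mul_le_mul h2 h1 (by positivity) (by positivity)
      _ = B⁻¹ * B⁻¹ := by
          field_simp
      _ ≤ ε * M2 := by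
          apply mul_le_mul _ hMB (by positivity) hε.le
          rw [inv_le_comm₀ hB0 hε, ← one_div]
          exact hBε
  · -- a2
    have h1 : K / P ≤ K / B ^ 50 := div_le_div_of_nonneg_left hKpos.le (by positivity) hP1
    have h2 : K / B ^ 50 ≤ B⁻¹ / 200 := by
      rw [div_le_div_iff₀ (by positivity) (by norm_num)]
      have h3 : B⁻¹ * B ^ 50 = B ^ 49 := by
        field_simp
      rw [h3]
      calc K * 200 ≤ B := by nlinarith
        _ = B ^ 1 := (pow_one B).symm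
        _ ≤ B ^ 49 := pow_le_pow_right₀ hBone (by norm_num)
    linarith
  · -- a3
    intro N hN1 hN2
    have hN1' : (1 : ℝ) ≤ N := by exact_mod_cast hN1
    have hN2' : (N : ℝ) ≤ 2 * X := by exact_mod_cast hN2
    have h1 : (N : ℝ) ^ (δ₀ / 100) ≤ 2 * B := by
      calc (N : ℝ) ^ (δ₀ / 100) ≤ (2 * X : ℝ) ^ (δ₀ / 100) :=
            Real.rpow_le_rpow (by linarith) hN2' (by positivity)
        _ = 2 ^ (δ₀ / 100) * B := by rw [Real.mul_rpow (by norm_num) hX0.le]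
        _ ≤ 2 ^ (1 : ℝ) * B := by
            apply mul_le_mul_of_nonneg_right _ hB0.le
            apply Real.rpow_le_rpow_of_exponent_le (by norm_num)
            linarith
        _ = 2 * B := by rw [Real.rpow_one]
    have h2 : P ^ (-(1 / 4) : ℝ) ≤ (B ^ 12)⁻¹ := by
      calc P ^ (-(1 / 4) : ℝ) ≤ (B ^ 50) ^ (-(1 / 4) : ℝ) :=
            Real.rpow_le_rpow_of_nonpos (by positivity) hP1 (by norm_num)
        _ = B ^ (-(25 / 2) : ℝ) := by
            rw [← Real.rpow_natCast, ← Real.rpow_mul hB0.le]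
            norm_num
        _ ≤ B ^ (-(12 : ℕ) : ℝ) := by
            apply Real.rpow_le_rpow_of_exponent_le hBone
            push_cast
            norm_num
        _ = (B ^ 12)⁻¹ := by rw [Real.rpow_neg hB0.le, Real.rpow_natCast]
    have h3 : K * (Cτ * (N : ℝ) ^ (δ₀ / 100)) ≤ K * (Cτ * (2 * B)) := by
      apply mul_le_mul_of_nonneg_left _ hKpos.le
      exact mul_le_mul_of_nonneg_left h1 (by linarith)
    calc K * (Cτ * (N : ℝ) ^ (δ₀ / 100)) * P ^ (-(1 / 4) : ℝ) ≤ K * (Cτ * (2 * B)) * (B ^ 12)⁻¹ :=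
          mul_le_mul h3 h2 (by positivity) (by positivity)
      _ ≤ B * (2 * B) / 28800 * (B ^ 12)⁻¹ := by
          apply mul_le_mul_of_nonneg_right _ (by positivity)
          have : K * Cτ ≤ B / 28800 := by linarith
          nlinarith
      _ = B⁻¹ / 14400 * (B ^ 9)⁻¹ := by
          field_simp
          ring
      _ ≤ B⁻¹ / 14400 * 1 := by
          apply mul_le_mul_of_nonneg_left _ (by positivity)
          exact inv_le_one_of_one_le₀ (one_le_pow₀ hBone)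
      _ ≤ M2 / 100 := by
          have : 0 < B⁻¹ := inv_pos.2 hB0
          linarith
  · -- a4
    have h1 : (X : ℝ) ^ (1 / 2 - η / 250) = √(X : ℝ) * (X : ℝ) ^ (-(η / 250)) := by
      rw [sub_eq_add_neg, Real.rpow_add hX0, Real.sqrt_eq_rpow]
    have h2 : (X : ℝ) ^ (-(η / 250)) ≤ (B ^ 214)⁻¹ := by
      apply hneg 214
      push_cast
      linarith
    have h3 : P ^ 2 ≤ B ^ 200 := by
      calc P ^ 2 ≤ (B ^ 100) ^ 2 := pow_le_pow_left₀ hP0.le hP2 2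
        _ = B ^ 200 := by ring
    calc √(X : ℝ) * (P ^ 2 * (X : ℝ) ^ (1 / 2 - η / 250)) =
          (√(X : ℝ) * √(X : ℝ)) * (P ^ 2 * (X : ℝ) ^ (-(η / 250))) := by rw [h1]; ring
      _ = X * (P ^ 2 * (X : ℝ) ^ (-(η / 250))) := by rw [hsq]
      _ ≤ X * (B ^ 200 * (B ^ 214)⁻¹) := by
          apply mul_le_mul_of_nonneg_left _ hX0.le
          exact mul_le_mul h3 h2 (by positivity) (by positivity)
      _ = X * (B ^ 13)⁻¹ * B⁻¹ := by
          field_simp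
      _ ≤ X * (B ^ 13)⁻¹ * (1 / 2) := by
          apply mul_le_mul_of_nonneg_left _ (by positivity)
          rw [inv_le_comm₀ hB0 (by norm_num)]
          linarith
      _ ≤ (X : ℝ) ^ (1 - δ₀ / 8) / 2 := by linarith
  · -- a5
    have hlog0 : 0 ≤ Real.log X := Real.log_nonneg hX1'
    have h1 : Real.log X ^ 14 ≤ B ^ 7 := by
      calc Real.log X ^ 14 ≤ ((X : ℝ) ^ (δ₀ / 200)) ^ 14 := pow_le_pow_left₀ hlog0 hlog 14
        _ = (X : ℝ) ^ (δ₀ / 100 * (7 : ℕ)) := by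
            rw [← Real.rpow_natCast, ← Real.rpow_mul hX0.le]
            congr 1
            push_cast
            ring
        _ = B ^ 7 := hpow 7
    have h2 : X * (B ^ 2)⁻¹ / 3600 ≤ (M2 * Nat.sqrt X / 30) ^ 2 := by
      have h3 : B⁻¹ * (√(X : ℝ) / 2) ≤ M2 * Nat.sqrt X := mul_le_mul hMB hH2 (by positivity) hM0.le
      have h4 : (B⁻¹ * (√(X : ℝ) / 2)) ^ 2 ≤ (M2 * Nat.sqrt X) ^ 2 :=
        pow_le_pow_left₀ (by positivity) h3 2
      have h5 : (B⁻¹ * (√(X : ℝ) / 2)) ^ 2 = X * (B ^ 2)⁻¹ / 4 := by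
        rw [mul_pow, div_pow, inv_pow, pow_two (√(X : ℝ)), hsq]
        ring
      rw [h5] at h4
      rw [div_pow]
      linarith
    have h3 : (X : ℝ) ^ (3 / 2 : ℝ) = X * √(X : ℝ) := by
      rw [Real.sqrt_eq_rpow]
      nth_rewrite 2 [← Real.rpow_one (X : ℝ)]
      rw [← Real.rpow_add hX0]
      norm_num
    have h4 : K * (X : ℝ) ^ (3 / 2 : ℝ) / P * Real.log X ^ 14 ≤
        K * (X * √(X : ℝ)) / B ^ 50 * B ^ 7 := by
      rw [h3]
      apply mul_le_mul _ h1 (by positivity) (by positivity)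
      exact div_le_div_of_nonneg_left (by positivity) (by positivity) hP1
    have h5 : 0 < X * (B ^ 2)⁻¹ / 3600 := by positivity
    have h6 : K * (X : ℝ) ^ (3 / 2 : ℝ) / P * Real.log X ^ 14 / (M2 * Nat.sqrt X / 30) ^ 2 ≤
        K * (X * √(X : ℝ)) / B ^ 50 * B ^ 7 / (X * (B ^ 2)⁻¹ / 3600) :=
      div_le_div₀ (by positivity) h4 h5 h2
    calc 4 * √(X : ℝ) * (K * (X : ℝ) ^ (3 / 2 : ℝ) / P * Real.log X ^ 14 /
        (M2 * Nat.sqrt X / 30) ^ 2) ≤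
          4 * √(X : ℝ) * (K * (X * √(X : ℝ)) / B ^ 50 * B ^ 7 / (X * (B ^ 2)⁻¹ / 3600)) :=
          mul_le_mul_of_nonneg_left h6 (by positivity)
      _ = (√(X : ℝ) * √(X : ℝ)) * (14400 * K) * (B ^ 13)⁻¹ * (B ^ 28)⁻¹ := by
          field_simp
          ring
      _ = X * (14400 * K) * (B ^ 13)⁻¹ * (B ^ 28)⁻¹ := by rw [hsq]
      _ ≤ X * (B / 2) * (B ^ 13)⁻¹ * (B ^ 28)⁻¹ := by
          apply mul_le_mul_of_nonneg_right _ (by positivity)
          apply mul_le_mul_of_nonneg_right _ (by positivity)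
          apply mul_le_mul_of_nonneg_left _ hX0.le
          linarith
      _ = X * (B ^ 13)⁻¹ / 2 * (B ^ 27)⁻¹ := by
          field_simp
      _ ≤ X * (B ^ 13)⁻¹ / 2 * 1 := by
          apply mul_le_mul_of_nonneg_left _ (by positivity)
          exact inv_le_one_of_one_le₀ (one_le_pow₀ hBone)
      _ ≤ _ := by linarith
  · -- 5 H < X
    have h1 : (5 * Nat.sqrt X : ℝ) < X := by
      calc (5 * Nat.sqrt X : ℝ) ≤ 5 * √(X : ℝ) := by linarith
        _ < √(X : ℝ) * √(X : ℝ) := by nlinarith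
        _ = X := hsq
    exact_mod_cast h1
  · linarith
  · have h1 : 2 * (P / Nat.sqrt X) * P ^ 2 = 2 * P ^ 3 / Nat.sqrt X := by ring
    rw [h1, div_lt_one hH0]
    linarith
  · refine le_trans hP2 ?_
    rw [← e100]
    apply hXle
    linarith
  · refine le_trans hP2 ?_
    rw [← e100]
    exact hXle _ _ hδη

end Pool.Agent.Helper83.MV.FNC
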