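import Pool.Agent.Helper83.MV.FNC2

/-!
# Project MV: module FNC (conclusion for `(X, 2X]`)
-/

set_option autoImplicit false

namespace Pool.Agent.Helper83.MV

open Finset MeasureTheory
open Pool.Agent.Helper23.MV
open Pool.Agent.Helper48.BK (ex th)
open Pool.Agent.Helper23.GK (SS)
open FNC

theorem hFnc (hFin : StFin) : StFnc := by
  intro hZer hNef hNeg hMnb hMja hRri hMjf hMjb hMnt
  classical
  obtain ⟨ηz, hηz0, hηz1, hZ⟩ := hZer
  obtain ⟨ηf, hηf0, hηf1, hF⟩ := hNef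
  obtain ⟨ηg, hηg0, hηg1, hG⟩ := hNeg
  set η : ℝ := min ηz (min ηf ηg) with hηdef
  have hη0 : 0 < η := lt_min hηz0 (lt_min hηf0 hηg0)
  have hηz : η ≤ ηz := min_le_left _ _
  have hηf : η ≤ ηf := le_trans (min_le_right _ _) (min_le_left _ _)
  have hηg : η ≤ ηg := le_trans (min_le_right _ _) (min_le_right _ _)
  have hη1 : η ≤ 1 / 100 := le_trans hηz hηz1
  obtain ⟨Cf, Xf, hCf, hXf, hF'⟩ := hF η hη0 hηf
  obtain ⟨Cg, Xg, hCg, hXg, hG'⟩ := hG η hη0 hηg
  obtain ⟨Cm, Xm, hCm, hXm, hMn⟩ := hMnb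
  obtain ⟨Cj, hCj, hMj⟩ := hMjb
  obtain ⟨Ct, hCt, hMt⟩ := hMnt
  set K : ℝ := Cf + Cg + Cm + Cj + Ct with hK
  have hK1 : 1 ≤ K := by linarith
  have hK0 : 0 < K := by linarith
  set ε : ℝ := 1 / (400 * K ^ 2) with hε
  have hε0 : 0 < ε := by positivity
  obtain ⟨δ₀, Xz, hδ0, hδη, hXz, hZ'⟩ := hZ η hη0 hηz ε hε0
  obtain ⟨Cτ, hCτ, hτ⟩ := Pool.Agent.Helper15.AB.hDB (δ₀ / 100) (by positivity)
  obtain ⟨X1, hX1, hA⟩ := asym K Cτ ε δ₀ η hK1 hCτ hε0 hδ0 hδη hη1
  refine ⟨δ₀ / 8, max X1 (max Xz (max Xf (max Xg Xm))), by positivity, ?_, ?_⟩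
  · exact le_trans (by linarith) (le_max_left _ _)
  intro X hX
  have hXX1 : X1 ≤ X := le_trans (le_max_left _ _) hX
  have hX' := le_trans (le_max_right _ _) hX
  have hXXz : Xz ≤ X := le_trans (le_max_left _ _) hX'
  have hX'' := le_trans (le_max_right _ _) hX'
  have hXXf : Xf ≤ X := le_trans (le_max_left _ _) hX''
  have hX''' := le_trans (le_max_right _ _) hX''
  have hXXg : Xg ≤ X := le_trans (le_max_left _ _) hX'''
  have hXXm : Xm ≤ X := le_trans (le_max_right _ _) hX'''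
  have hX100r : (100 : ℝ) ≤ X := le_trans hX1 hXX1
  have hX100 : 100 ≤ X := by exact_mod_cast hX100r
  have hX0 : (0 : ℝ) < X := by linarith
  have hX1r : (1 : ℝ) ≤ X := by linarith
  have hlogX : 0 < Real.log X := Real.log_pos (by linarith)
  obtain ⟨P, hP1, hP2, hcase⟩ := hZ' X hXXz
  have hPone : 1 ≤ P := le_trans (Real.one_le_rpow hX1r (by positivity)) hP1
  have hP0 : 0 < P := by linarith
  have hPη : P ≤ (X : ℝ) ^ (η / 1000) :=
    le_trans hP2 (Real.rpow_le_rpow_of_exponent_le hX1r (by linarith))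
  have hsq0 : (0 : ℝ) ≤ √(X : ℝ) := Real.sqrt_nonneg _
  -- unified form of ZER
  obtain ⟨o, hOKo, hOKb, her, hm1, hm2, hZS⟩ : ∃ o : Option (PCh × ℝ), OKo o η X ∧ OKb o 1 ∧
      (∀ (e : PCh) (δ : ℝ), o = some (e, δ) → (e.r : ℝ) ^ 2 ≤ P) ∧
      P ^ (-(1 / 100) : ℝ) ≤ mm o X ^ 2 ∧ mm o X ^ 2 ≤ 1 ∧
      ∑ c ∈ PS P, ZS o c (2 * η) X (√(X : ℝ)) ≤ ε * mm o X ^ 2 := by
    rcases hcase with h | ⟨e, δ, heRe, her, hδ1, hδ2, hL, hmz, hmin, hsum⟩
    · refine ⟨none, ?_, ?_, ?_, ?_, ?_, ?_⟩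
      · intro e δ h
        cases h
      · intro e δ h
        cases h
      · intro e δ h
        cases h
      · have h1 : P ^ (-(1 / 100) : ℝ) ≤ 1 :=
          Real.rpow_le_one_of_one_le_of_nonpos hPone (by norm_num)
        simpa [mm] using h1
      · simp [mm]
      · simpa [mm] using h
    · have hmm : mm (some (e, δ)) X = min 1 (δ * Real.log X) := rfl
      have hr1 : (1 : ℝ) ≤ e.r := by exact_mod_cast Nat.one_le_iff_ne_zero.2 e.hr
      have hmin0 : 0 ≤ min 1 (δ * Real.log X) := le_min zero_le_one (by positivity)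
      have hmin1 : min 1 (δ * Real.log X) ≤ 1 := min_le_left _ _
      refine ⟨some (e, δ), ?_, ?_, ?_, ?_, ?_, ?_⟩
      · intro e' δ' h
        rw [Option.some.injEq, Prod.mk.injEq] at h
        obtain ⟨rfl, rfl⟩ := h
        refine ⟨heRe, ?_, hδ1, hδ2, hL, hmz⟩
        refine le_trans ?_ (le_trans her hPη)
        nlinarith
      · intro e' δ' h
        rw [Option.some.injEq, Prod.mk.injEq] at h
        obtain ⟨rfl, rfl⟩ := h
        exact ⟨heRe, hδ1, by linarith, hL, hmz⟩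
      · intro e' δ' h
        rw [Option.some.injEq, Prod.mk.injEq] at h
        obtain ⟨rfl, rfl⟩ := h
        exact her
      · rw [hmm]
        exact hmin
      · rw [hmm]
        exact pow_le_one₀ hmin0 hmin1
      · rw [hmm]
        exact hsum
  obtain ⟨M2, hM2⟩ : ∃ M2 : ℝ, M2 = mm o X ^ 2 := ⟨_, rfl⟩
  rw [← hM2] at hm1 hm2 hZS
  obtain ⟨-, hM0, hA1, hA2, hA3, hA4, hA5, hA6, hA7, hA8, hA9, hA10⟩ :=
    hA X hXX1 P M2 hP1 hP2 hm1 hm2
  set H := Nat.sqrt X with hH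
  have hHpos : 1 ≤ H := Nat.sqrt_pos.2 (by omega)
  have hH0 : (0 : ℝ) < H := by exact_mod_cast hHpos
  have hHsq : (H : ℝ) ≤ √(X : ℝ) := Real.nat_sqrt_le_real_sqrt
  have hcPS := card_PS hFin P hPone
  have hcond : ∀ c ∈ PS P, (c.r : ℝ) ≤ (X : ℝ) ^ (η / 1000) := fun c hc =>
    le_trans ((hFin.1 P c).1 hc) hPη
  -- sums of the bounds
  have hsumb : ∀ (C x : ℝ), 0 ≤ C → C ≤ K → η / 4000 ≤ x →
      ∑ c ∈ PS P, C * (ZS o c (2 * η) X (√(X : ℝ)) + (X : ℝ) ^ (-x)) ≤ M2 / (200 * K) := by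
    intro C x hC0 hCK hx
    rw [← Finset.mul_sum, Finset.sum_add_distrib, Finset.sum_const, nsmul_eq_mul]
    have h1 : (X : ℝ) ^ (-x) ≤ (X : ℝ) ^ (-(η / 4000)) :=
      Real.rpow_le_rpow_of_exponent_le hX1r (by linarith)
    have h2 : ((PS P).card : ℝ) * (X : ℝ) ^ (-x) ≤ ε * M2 := by
      refine le_trans ?_ hA1
      exact mul_le_mul hcPS h1 (by positivity) (by positivity)
    have h3 : 0 ≤ ∑ c ∈ PS P, ZS o c (2 * η) X (√(X : ℝ)) :=
      Finset.sum_nonneg fun c _ => ZS_nonneg _ _ _ _ _ hsq0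
    have h4 : 0 ≤ ((PS P).card : ℝ) * (X : ℝ) ^ (-x) := by positivity
    calc C * (∑ c ∈ PS P, ZS o c (2 * η) X (√(X : ℝ)) + ((PS P).card : ℝ) * (X : ℝ) ^ (-x)) ≤
          K * (ε * M2 + ε * M2) := by
          apply mul_le_mul hCK _ (by linarith) hK0.le
          linarith
      _ = M2 / (200 * K) := by
          rw [hε]
          field_simp
          ring
  set J : Finset ℕ := (range X).filter (fun j => j * H < X) with hJ
  set Bad : Finset ℕ := J.filter (fun j => ∃ c ∈ PS P,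
    Cg * √(H : ℝ) * (ZS o c (2 * η) X (√(X : ℝ)) + (X : ℝ) ^ (-(η / 4000))) <
      nrm (Eg o c (X + j * H) H) (P / H)) with hBad
  set Exc : Finset ℕ := (Ioc X (2 * X)).filter (fun N => Even N ∧ ¬ ∃ p : ℕ, p.Prime ∧
    (N - p).Prime ∧ p < N ∧ Nat.sqrt X * 2 < p ∧ p ≤ 3 * Nat.sqrt X) with hExc
  set V : ℝ := K * (X : ℝ) ^ (3 / 2 : ℝ) / P * Real.log X ^ 14 with hV
  set thr : ℝ := M2 * H / 30 with hthr
  have hthr0 : 0 < thr := by positivity
  have hcount := count X H hHpos J Bad Exc (fun j N => ‖∫ α in mn P (P / H), SfH H α *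
      SgH (X + j * H) H α * ex (-(N * α))‖) thr V
    (fun j h1 h2 => mem_filter.2 ⟨mem_range.2 h2, h1⟩) (Finset.filter_subset _ _) hthr0
    (by
      intro j hj
      have hj' := (mem_filter.1 hj).2
      refine le_trans (hMn X j P hXXm hPone hA9 hj') ?_
      rw [hV]
      apply mul_le_mul_of_nonneg_right _ (by positivity)
      apply div_le_div_of_nonneg_right _ hP0.le
      apply mul_le_mul_of_nonneg_right _ (by positivity)
      linarith)
    (by
      intro j hj hjB N hN hNE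
      by_contra hcon
      push Not at hcon
      rw [mem_Ioc] at hN
      obtain ⟨hN1, hN2, hN3⟩ := mem_filter.1 hNE
      rw [mem_Ioc] at hN1
      apply hN3
      have hjgood : ∀ c ∈ PS P, nrm (Eg o c (X + j * H) H) (P / H) ≤
          Cg * √(H : ℝ) * (ZS o c (2 * η) X (√(X : ℝ)) + (X : ℝ) ^ (-(η / 4000))) := by
        intro c hc
        by_contra hcon2
        push Not at hcon2
        exact hjB (mem_filter.2 ⟨hj, c, hc, hcon2⟩)
      refine good_N hMja hRri hMjf K ?_ ?_ X j N P M2 (M2 / (200 * K)) o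
        (fun c => Cf * (ZS o c (2 * η) X (√(X : ℝ)) + (X : ℝ) ^ (-(η / 200))))
        (fun c => Cg * (ZS o c (2 * η) X (√(X : ℝ)) + (X : ℝ) ^ (-(η / 4000))))
        hX100 hHpos hPone hA6 hN.1 hN.2 hN1.2 hN2 hA7 hA8 hM2.symm hM0 hOKb her (by positivity)
        ?_ ?_ ?_ ?_ ?_ ?_ hcon
      · intro o' H' N₀' N' P' ε' a' b' k1 k2 k3 k4 k5 k6 k7 k8 k9 k10 k11 k12 k13
        refine le_trans (hMj o' H' N₀' N' P' ε' a' b' k1 k2 k3 k4 k5 k6 k7 k8 k9 k10 k11 k12 k13) ?_
        have hSS : 1 ≤ SS N' := (Pool.Agent.Helper29.GK.hSSA N' (by omega)).1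
        have h1 : 0 ≤ SS N' * H' * (ε' + 1 / P') := by
          have : 0 < 1 / P' := by positivity
          have h2 : 0 ≤ ε' + 1 / P' := by linarith
          positivity
        calc Cj * SS N' * H' * (ε' + 1 / P') = Cj * (SS N' * H' * (ε' + 1 / P')) := by ring
          _ ≤ K * (SS N' * H' * (ε' + 1 / P')) := mul_le_mul_of_nonneg_right (by linarith) h1
          _ = _ := by ring
      · intro X' o' N' P' k1 k2 k3 k4 k5 k6 k7
        refine le_trans ?_ (hMt X' o' N' P' k1 k2 k3 k4 k5 k6 k7)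
        have hSS : 1 ≤ SS N' := (Pool.Agent.Helper29.GK.hSSA N' (by omega)).1
        apply mul_le_mul_of_nonneg_left _ (by positivity)
        apply sub_le_sub_left
        apply mul_le_mul_of_nonneg_right _ (by positivity)
        apply mul_le_mul_of_nonneg_right _ (by positivity)
        linarith
      · rw [div_le_one (by positivity)]
        linarith
      · intro c hc
        have hz := ZS_nonneg o c (2 * η) X (√(X : ℝ)) hsq0
        refine ⟨by positivity, by positivity, ?_, ?_⟩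
        · refine le_trans (hF' X o c P hXXf hOKo (hcond c hc) hPone hA10) (le_of_eq ?_)
          ring
        · refine le_trans (hjgood c hc) (le_of_eq ?_)
          ring
      · exact hsumb Cf (η / 200) (by linarith) (by linarith) (by linarith)
      · exact hsumb Cg (η / 4000) (by linarith) (by linarith) le_rfl
      · have h1 : K * (M2 / (200 * K) + 1 / P) = M2 / 200 + K / P := by
          field_simp
        rw [h1]
        linarith
      · have h1 := hτ N (by omega)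
        refine le_trans ?_ (hA3 N (by omega) hN1.2)
        apply mul_le_mul_of_nonneg_right _ (by positivity)
        exact mul_le_mul_of_nonneg_left h1 hK0.le)
  refine le_trans hcount ?_
  -- bad blocks
  have hBadcard : (Bad.card : ℝ) ≤ P ^ 2 * (X : ℝ) ^ (1 / 2 - η / 250) := by
    have h1 : Bad ⊆ (PS P).biUnion fun c => (range X).filter (fun j => j * H < X ∧
        Cg * √(H : ℝ) * (ZS o c (2 * η) X (√(X : ℝ)) + (X : ℝ) ^ (-(η / 4000))) <
          nrm (Eg o c (X + j * H) H) (P / H)) := by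
      intro j hj
      rw [hBad, mem_filter] at hj
      obtain ⟨hj1, c, hc, hj2⟩ := hj
      rw [hJ, mem_filter] at hj1
      rw [Finset.mem_biUnion]
      exact ⟨c, hc, mem_filter.2 ⟨hj1.1, hj1.2, hj2⟩⟩
    have h2 := (Finset.card_le_card h1).trans Finset.card_biUnion_le
    have h3 : (Bad.card : ℝ) ≤ ∑ c ∈ PS P, (X : ℝ) ^ (1 / 2 - η / 250) := by
      calc (Bad.card : ℝ) ≤ ((∑ c ∈ PS P, ((range X).filter (fun j => j * H < X ∧
        Cg * √(H : ℝ) * (ZS o c (2 * η) X (√(X : ℝ)) + (X : ℝ) ^ (-(η / 4000))) <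
          nrm (Eg o c (X + j * H) H) (P / H))).card : ℕ) : ℝ) := by exact_mod_cast h2
        _ = ∑ c ∈ PS P, (((range X).filter (fun j => j * H < X ∧
        Cg * √(H : ℝ) * (ZS o c (2 * η) X (√(X : ℝ)) + (X : ℝ) ^ (-(η / 4000))) <
          nrm (Eg o c (X + j * H) H) (P / H))).card : ℝ) := by push_cast; rfl
        _ ≤ _ := Finset.sum_le_sum fun c hc => hG' X o c P hXXg hOKo (hcond c hc) hPone hA10
    rw [Finset.sum_const, nsmul_eq_mul] at h3
    refine le_trans h3 ?_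
    exact mul_le_mul_of_nonneg_right hcPS (by positivity)
  have hJcard : (J.card : ℝ) ≤ 4 * √(X : ℝ) := by
    have h1 := card_J X (by omega)
    have h2 : (J.card : ℝ) ≤ 4 * (H : ℝ) := by exact_mod_cast h1
    linarith
  have hVt : 0 ≤ V / thr ^ 2 := by positivity
  calc (H : ℝ) * Bad.card + J.card * (V / thr ^ 2) ≤
        √(X : ℝ) * (P ^ 2 * (X : ℝ) ^ (1 / 2 - η / 250)) + 4 * √(X : ℝ) * (V / thr ^ 2) := by
        apply add_le_add
        · exact mul_le_mul hHsq hBadcard (Nat.cast_nonneg _) hsq0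
        · exact mul_le_mul_of_nonneg_right hJcard hVt
    _ ≤ (X : ℝ) ^ (1 - δ₀ / 8) / 2 + (X : ℝ) ^ (1 - δ₀ / 8) / 2 := add_le_add hA4 hA5
    _ = _ := by ring

end Pool.Agent.Helper83.MV
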